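import Mathlib

set_option autoImplicit false
set_option linter.unusedSectionVars false

namespace H192Z.Iso

/-- syllable types -/
inductive Ty | al | ga | de | xx | yy | zz
  deriving DecidableEq

instance : Fintype Ty := ⟨{.al, .ga, .de, .xx, .yy, .zz}, by intro x; cases x <;> simp⟩

abbrev Syl (B : Type) := Ty × B × Bool

def sg {Γ : Type} [Group Γ] (b : Bool) (x : Γ) : Γ := cond b x x⁻¹

structure Dat (B Γ : Type) where
  p : B → Γ
  q : B → Γ
  a : Γ
  g : Γ
  d : Γ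

section defs
variable {B B' Γ Γ' : Type} [Group Γ] [Group Γ']

def cm (u v : Γ) : Γ := u * v * u⁻¹ * v⁻¹

def Dat.x (D : Dat B Γ) : Γ := cm D.a D.g
def Dat.y (D : Dat B Γ) : Γ := cm D.g D.d

def Dat.syl (D : Dat B Γ) : Ty → B → Γ
  | .al, h => (D.p h)⁻¹ * D.a * D.p h
  | .ga, h => D.p h * D.g * (D.p h)⁻¹
  | .de, h => D.q h * D.d * (D.q h)⁻¹
  | .xx, h => (D.q h)⁻¹ * D.x * D.q h
  | .yy, h => D.p h * D.y * (D.p h)⁻¹
  | .zz, h => cm D.a (D.p h * D.y * (D.p h)⁻¹)

def Dat.W (D : Dat B Γ) (s : Syl B) : Γ := sg s.2.2 (D.syl s.1 s.2.1)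

def Dat.P (D : Dat B Γ) (l : List (Syl B)) : Γ := (l.map D.W).prod

def Dat.map (D : Dat B Γ) (f : Γ →* Γ') : Dat B Γ' := ⟨f ∘ D.p, f ∘ D.q, f D.a, f D.g, f D.d⟩

def Dat.comap (D : Dat B Γ) (e : B' → B) : Dat B' Γ := ⟨D.p ∘ e, D.q ∘ e, D.a, D.g, D.d⟩

def ix (e : B' → B) (s : Syl B') : Syl B := (s.1, e s.2.1, s.2.2)

lemma map_sg (f : Γ →* Γ') (b : Bool) (x : Γ) : f (sg b x) = sg b (f x) := by
  cases b <;> simp [sg]

lemma Dat.map_syl (D : Dat B Γ) (f : Γ →* Γ') (t : Ty) (h : B) :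
    f (D.syl t h) = (D.map f).syl t h := by
  cases t <;> simp [Dat.syl, Dat.map, Dat.x, Dat.y, cm]

lemma Dat.map_W (D : Dat B Γ) (f : Γ →* Γ') (s : Syl B) : f (D.W s) = (D.map f).W s := by
  simp [Dat.W, map_sg, Dat.map_syl]

lemma Dat.map_P (D : Dat B Γ) (f : Γ →* Γ') (l : List (Syl B)) :
    f (D.P l) = (D.map f).P l := by
  induction l with
  | nil => simp [Dat.P]
  | cons s l ih =>
    simp only [Dat.P, List.map_cons, List.prod_cons, map_mul] at ih ⊢
    rw [ih, Dat.map_W]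

lemma Dat.comap_W (D : Dat B Γ) (e : B' → B) (s : Syl B') :
    (D.comap e).W s = D.W (ix e s) := by
  obtain ⟨t, h, b⟩ := s
  cases t <;> rfl

lemma Dat.comap_P (D : Dat B Γ) (e : B' → B) (l : List (Syl B')) :
    (D.comap e).P l = D.P (l.map (ix e)) := by
  induction l with
  | nil => simp [Dat.P]
  | cons s l ih =>
    simp only [Dat.P, List.map_cons, List.prod_cons] at ih ⊢
    rw [ih, Dat.comap_W]

@[simp] lemma Dat.P_nil (D : Dat B Γ) : D.P [] = 1 := rfl
@[simp] lemma Dat.P_cons (D : Dat B Γ) (s : Syl B) (l : List (Syl B)) :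
    D.P (s :: l) = D.W s * D.P l := rfl
@[simp] lemma Dat.P_append (D : Dat B Γ) (l l' : List (Syl B)) :
    D.P (l ++ l') = D.P l * D.P l' := by simp [Dat.P]

lemma Dat.W_cancel (D : Dat B Γ) (t : Ty) (h : B) (b : Bool) :
    D.W (t, h, b) * D.W (t, h, !b) = 1 := by
  cases b <;> simp [Dat.W, sg]

end defs

/-- the commutator correction -/
def cor {B : Type} [Group B] (s x : Syl B) : List (Syl B) :=
  match s.1, x.1 with
  | .al, .ga => [(.xx, s.2.1 * x.2.1, !(x.2.2 == s.2.2))]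
  | .de, .ga => [(.yy, x.2.1 * s.2.1, x.2.2 == s.2.2)]
  | .de, .xx => [(.zz, x.2.1 * s.2.1, x.2.2 == s.2.2)]
  | _, _ => []

def good : Ty → Ty → Bool
  | .al, .ga => true
  | .al, .de => true
  | .al, .xx => true
  | .de, .ga => true
  | .de, .xx => true
  | .de, .yy => true
  | .de, .zz => true
  | .ga, .xx => true
  | .ga, .yy => true
  | .ga, .zz => true
  | .xx, .xx => true
  | .xx, .yy => true
  | .xx, .zz => true
  | .yy, .xx => true
  | .yy, .yy => true
  | .yy, .zz => true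
  | .zz, .xx => true
  | .zz, .yy => true
  | .zz, .zz => true
  | _, _ => false

lemma cor_ix {B B' : Type} [Group B] [Group B'] (e : B' →* B) (s x : Syl B') :
    (cor s x).map (ix e) = cor (ix e s) (ix e x) := by
  obtain ⟨t, h, b⟩ := s
  obtain ⟨t', h', b'⟩ := x
  cases t <;> cases t' <;> simp [cor, ix]

section rel
variable {B Γ : Type} [Group B] [Group Γ]

lemma sg_comm {u v : Γ} (h : Commute u v) (e f : Bool) : Commute (sg e u) (sg f v) := by
  cases e <;> cases f <;> simp [sg, h]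

lemma swap_sg {u v c : Γ} (h : cm u v = c) (hu : Commute c u) (hv : Commute c v) (e f : Bool) :
    sg e u * sg f v = sg f v * sg e u * sg (e == f) c := by
  have h1 : u * v = c * v * u := by rw [← h, cm]; group
  have hu' := hu.eq
  have hv' := hv.eq
  have hui := (hu.inv_left).eq
  have hvi := (hv.inv_left).eq
  cases e <;> cases f <;> simp only [sg, cond_true, cond_false, beq_self_eq_true,
    Bool.true_beq, Bool.false_beq, Bool.not_true]
  · have : u⁻¹ * v⁻¹ = (c⁻¹ * (u * v))⁻¹ := by rw [h1]; group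
    rw [this]; group
  · calc u⁻¹ * v = u⁻¹ * (c⁻¹ * (u * v) * u⁻¹) := by rw [h1]; group
      _ = u⁻¹ * ((c⁻¹ * u) * v * u⁻¹) := by group
      _ = c⁻¹ * v * u⁻¹ := by rw [hui]; group
      _ = v * (c⁻¹ * u⁻¹) := by rw [hvi]; group
      _ = v * u⁻¹ * c⁻¹ := by rw [(hu.inv_left.inv_right).eq]; group
  · calc u * v⁻¹ = v⁻¹ * (c⁻¹ * (c * v * u)) * v⁻¹ := by group
      _ = v⁻¹ * (c⁻¹ * u) * (v * v⁻¹) := by rw [← h1]; group
      _ = v⁻¹ * u * c⁻¹ := by rw [hui]; group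
  · calc u * v = (c * v) * u := h1
      _ = v * (c * u) := by rw [hv']; group
      _ = v * u * c := by rw [hu']; group

lemma cm_conj (D u v : Γ) : D * cm u v * D⁻¹ = cm (D * u * D⁻¹) (D * v * D⁻¹) := by
  unfold cm; group

lemma commute_conj {u v : Γ} (h : Commute u v) (D : Γ) :
    Commute (D * u * D⁻¹) (D * v * D⁻¹) := by
  have := h.eq
  show _ = _
  calc D * u * D⁻¹ * (D * v * D⁻¹) = D * (u * v) * D⁻¹ := by group
    _ = D * (v * u) * D⁻¹ := by rw [this]
    _ = _ := by group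

lemma commute_cm {w u v : Γ} (h1 : Commute w u) (h2 : Commute w v) : Commute w (cm u v) := by
  unfold cm
  exact ((h1.mul_right h2).mul_right h1.inv_right).mul_right h2.inv_right

lemma conj_eq {w D : Γ} (h : Commute w D) : D * w * D⁻¹ = w := by
  rw [← h.eq]; group

lemma hall_witt {A G D X Y : Γ} (hAD : Commute A D) (hX : cm A G = X) (hY : cm G D = Y)
    (hXY : Commute X Y) (hYD : Commute Y D) : cm A Y = cm X D := by
  have h1 : A * G * A⁻¹ = X * G := by rw [← hX, cm]; group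
  have h2 : G * D * G⁻¹ = Y * D := by rw [← hY, cm]; group
  have h3 : A * Y * A⁻¹ = Y * cm X D := by
    rw [← hY, cm_conj, h1, conj_eq hAD.symm, hY]
    calc cm (X * G) D = X * (G * D * G⁻¹) * X⁻¹ * D⁻¹ := by unfold cm; group
      _ = (X * Y) * D * X⁻¹ * D⁻¹ := by rw [h2]; group
      _ = Y * cm X D := by rw [hXY.eq]; unfold cm; group
  have h4 : Commute Y (cm X D) := commute_cm hXY.symm hYD
  calc cm A Y = (A * Y * A⁻¹) * Y⁻¹ := by unfold cm; group
    _ = Y * cm X D * Y⁻¹ := by rw [h3]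
    _ = cm X D := conj_eq h4.symm

structure Rel (D : Dat B Γ) (t : B) : Prop where
  pm : ∀ h k, D.p (h * k) = D.p h * D.p k
  qm : ∀ h k, D.q (h * k) = D.q h * D.q k
  pq : ∀ h k, Commute (D.p h) (D.q k)
  aq : ∀ h, Commute D.a (D.q h)
  dp : ∀ h, Commute D.d (D.p h)
  gpq : ∀ h, Commute D.g (D.p h * D.q h)
  ad : Commute D.a D.d
  xp : ∀ h, Commute D.x (D.p h)
  yq : ∀ h, Commute D.y (D.q h)
  xa : Commute D.x D.a
  xg : Commute D.x D.g
  yg : Commute D.y D.g
  yd : Commute D.y D.d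
  xy : Commute D.x D.y
  ty : D.p t * D.y * (D.p t)⁻¹ = D.y * D.y

namespace Rel
variable {D : Dat B Γ} {t : B} (H : Rel D t)
include H

lemma p1 : D.p 1 = 1 := by
  have := H.pm 1 1; rw [mul_one] at this; exact left_eq_mul.mp this
lemma q1 : D.q 1 = 1 := by
  have := H.qm 1 1; rw [mul_one] at this; exact left_eq_mul.mp this
lemma pi (h : B) : D.p h⁻¹ = (D.p h)⁻¹ := by
  have := H.pm h⁻¹ h; rw [inv_mul_cancel, H.p1] at this
  exact eq_inv_of_mul_eq_one_left this.symm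
lemma qi (h : B) : D.q h⁻¹ = (D.q h)⁻¹ := by
  have := H.qm h⁻¹ h; rw [inv_mul_cancel, H.q1] at this
  exact eq_inv_of_mul_eq_one_left this.symm

lemma conj2 (u v : B) (w : Γ) : (D.p u * D.q v) * w * (D.p u * D.q v)⁻¹
    = D.p u * (D.q v * w * (D.q v)⁻¹) * (D.p u)⁻¹ := by group

lemma conj2' (u v : B) (w : Γ) : (D.p u * D.q v) * w * (D.p u * D.q v)⁻¹
    = D.q v * (D.p u * w * (D.p u)⁻¹) * (D.q v)⁻¹ := by rw [(H.pq u v).eq]; group

lemma c_a (u v : B) : (D.p u * D.q v) * D.a * (D.p u * D.q v)⁻¹ = D.syl .al u⁻¹ := by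
  rw [H.conj2, conj_eq (H.aq v)]; simp [Dat.syl, H.pi]
lemma c_d (u v : B) : (D.p u * D.q v) * D.d * (D.p u * D.q v)⁻¹ = D.syl .de v := by
  rw [H.conj2', conj_eq (H.dp u)]; simp [Dat.syl]
lemma c_x (u v : B) : (D.p u * D.q v) * D.x * (D.p u * D.q v)⁻¹ = D.syl .xx v⁻¹ := by
  rw [H.conj2', conj_eq (H.xp u)]; simp [Dat.syl, H.qi]
lemma c_y (u v : B) : (D.p u * D.q v) * D.y * (D.p u * D.q v)⁻¹ = D.syl .yy u := by
  rw [H.conj2, conj_eq (H.yq v)]; simp [Dat.syl]
lemma c_g (u v : B) : (D.p u * D.q v) * D.g * (D.p u * D.q v)⁻¹ = D.syl .ga (u * v⁻¹) := by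
  have h1 : D.p u * D.q v = D.p (u * v⁻¹) * (D.p v * D.q v) := by
    rw [← mul_assoc, ← H.pm]; simp
  rw [h1]
  calc D.p (u * v⁻¹) * (D.p v * D.q v) * D.g * (D.p (u * v⁻¹) * (D.p v * D.q v))⁻¹
      = D.p (u * v⁻¹) * ((D.p v * D.q v) * D.g * (D.p v * D.q v)⁻¹) * (D.p (u * v⁻¹))⁻¹ := by
        group
    _ = _ := by rw [conj_eq (H.gpq v)]; rfl

lemma al1 : D.syl .al 1 = D.a := by simp [Dat.syl, H.p1]
lemma de1 : D.syl .de 1 = D.d := by simp [Dat.syl, H.q1]

lemma al_ga (h k : B) : cm (D.syl .al h) (D.syl .ga k) = D.syl .xx (h * k) := by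
  have := cm_conj (D.p h⁻¹ * D.q (h * k)⁻¹) D.a D.g
  rw [H.c_a, H.c_g, show cm D.a D.g = D.x from rfl, H.c_x] at this
  simpa using this.symm
lemma ga_de (h k : B) : cm (D.syl .ga h) (D.syl .de k) = D.syl .yy (h * k) := by
  have := cm_conj (D.p (h * k) * D.q k) D.g D.d
  rw [H.c_d, H.c_g, show cm D.g D.d = D.y from rfl, H.c_y] at this
  simpa using this.symm
lemma al_de (h k : B) : Commute (D.syl .al h) (D.syl .de k) := by
  have := commute_conj H.ad (D.p h⁻¹ * D.q k)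
  rw [H.c_a, H.c_d] at this
  simpa using this
lemma xx_al (h k : B) : Commute (D.syl .xx h) (D.syl .al k) := by
  have := commute_conj H.xa (D.p k⁻¹ * D.q h⁻¹)
  rw [H.c_a, H.c_x] at this
  simpa using this
lemma xx_ga (h k : B) : Commute (D.syl .xx h) (D.syl .ga k) := by
  have := commute_conj H.xg (D.p (k * h⁻¹) * D.q h⁻¹)
  rw [H.c_g, H.c_x] at this
  simpa using this
lemma yy_ga (h k : B) : Commute (D.syl .yy h) (D.syl .ga k) := by
  have := commute_conj H.yg (D.p h * D.q (k⁻¹ * h))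
  rw [H.c_g, H.c_y] at this
  simpa using this
lemma yy_de (h k : B) : Commute (D.syl .yy h) (D.syl .de k) := by
  have := commute_conj H.yd (D.p h * D.q k)
  rw [H.c_d, H.c_y] at this
  exact this
lemma xx_yy (h k : B) : Commute (D.syl .xx h) (D.syl .yy k) := by
  have := commute_conj H.xy (D.p k * D.q h⁻¹)
  rw [H.c_x, H.c_y] at this
  simpa using this
lemma xx_xx (h k : B) : Commute (D.syl .xx h) (D.syl .xx k) := by
  have := H.al_ga 1 k
  rw [one_mul] at this
  rw [← this]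
  exact commute_cm (H.xx_al _ _) (H.xx_ga _ _)
lemma yy_yy (h k : B) : Commute (D.syl .yy h) (D.syl .yy k) := by
  have := H.ga_de k 1
  rw [mul_one] at this
  rw [← this]
  exact commute_cm (H.yy_ga _ _) (H.yy_de _ _)
lemma zz_eq (h : B) : D.syl .zz h = cm (D.syl .xx h) D.d := by
  have h1 := H.al_ga 1 h
  have h2 := H.ga_de h 1
  rw [one_mul, H.al1] at h1
  rw [mul_one, H.de1] at h2
  have h3 := H.yy_de h 1
  rw [H.de1] at h3
  exact hall_witt H.ad h1 h2 (H.xx_yy h h) h3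
lemma zz_eq' (h : B) : D.syl .zz h = cm D.a (D.syl .yy h) := rfl

lemma yy_q (h k : B) : Commute (D.syl .yy h) (D.q k) :=
  (((H.pq h k).symm.mul_right (H.yq k).symm).mul_right (H.pq h k).symm.inv_right).symm
lemma xx_p (h k : B) : Commute (D.syl .xx h) (D.p k) :=
  (((H.pq k h).inv_right.mul_right (H.xp k).symm).mul_right (H.pq k h)).symm
lemma zz_q (h k : B) : Commute (D.syl .zz h) (D.q k) := by
  rw [H.zz_eq']; exact (commute_cm (H.aq k).symm (H.yy_q h k).symm).symm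
lemma zz_p (h k : B) : Commute (D.syl .zz h) (D.p k) := by
  rw [H.zz_eq]; exact (commute_cm (H.xx_p h k).symm (H.dp k).symm).symm
lemma zz_a (h : B) : Commute (D.syl .zz h) D.a := by
  rw [H.zz_eq]
  have := H.xx_al h 1
  rw [H.al1] at this
  exact (commute_cm this.symm H.ad).symm
lemma zz_d (h : B) : Commute (D.syl .zz h) D.d := by
  rw [H.zz_eq']
  have := H.yy_de h 1
  rw [H.de1] at this
  exact (commute_cm H.ad.symm this.symm).symm
lemma zz_g (h : B) : Commute (D.syl .zz h) D.g := by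
  have h1 : Commute (D.syl .yy h) D.g := by
    have := H.yy_ga h 1
    simpa [Dat.syl, H.p1] using this
  have h2 : Commute D.x (D.syl .yy h) := by
    have := H.xx_yy 1 h
    simpa [Dat.syl, H.q1] using this
  have h3 : D.g * D.a * D.g⁻¹ = D.x⁻¹ * D.a := by
    unfold Dat.x cm
    group
  have h4 : D.g * D.syl .zz h * D.g⁻¹ = D.syl .zz h := by
    rw [H.zz_eq', cm_conj, h3, conj_eq h1]
    have h5 : Commute D.x (cm D.a (D.syl .yy h)) := commute_cm H.xa h2
    calc cm (D.x⁻¹ * D.a) (D.syl .yy h)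
        = D.x⁻¹ * (D.a * D.syl .yy h * D.a⁻¹) * (D.x * (D.syl .yy h)⁻¹) := by unfold cm; group
      _ = D.x⁻¹ * cm D.a (D.syl .yy h) * D.x⁻¹⁻¹ := by
          rw [(h2.inv_right).eq]; unfold cm; group
      _ = _ := conj_eq h5.symm.inv_right
  show _ = _
  calc D.syl .zz h * D.g = (D.g * D.syl .zz h * D.g⁻¹) * D.g := by rw [h4]
    _ = _ := by group
lemma zz_all (h : B) (s : Ty) (k : B) : Commute (D.syl .zz h) (D.syl s k) := by
  have hx : Commute (D.syl .zz h) D.x := commute_cm (H.zz_a h) (H.zz_g h)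
  have hy : Commute (D.syl .zz h) D.y := commute_cm (H.zz_g h) (H.zz_d h)
  have hp := H.zz_p h k
  have hq := H.zz_q h k
  cases s
  · exact (hp.inv_right.mul_right (H.zz_a h)).mul_right hp
  · exact (hp.mul_right (H.zz_g h)).mul_right hp.inv_right
  · exact (hq.mul_right (H.zz_d h)).mul_right hq.inv_right
  · exact (hq.inv_right.mul_right hx).mul_right hq
  · exact (hp.mul_right hy).mul_right hp.inv_right
  · exact commute_cm (H.zz_a h) ((hp.mul_right hy).mul_right hp.inv_right)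
lemma xx_de (h k : B) : cm (D.syl .xx h) (D.syl .de k) = D.syl .zz (h * k) := by
  have := cm_conj (D.q k) (D.syl .xx (h * k)) D.d
  rw [← H.zz_eq, conj_eq (H.zz_q _ _)] at this
  rw [this]
  congr 1
  simp only [Dat.syl, H.qm]
  group
lemma yy_t (h : B) : D.syl .yy (h * t) = D.syl .yy h * D.syl .yy h := by
  simp only [Dat.syl, H.pm]
  calc D.p h * D.p t * D.y * (D.p h * D.p t)⁻¹
      = D.p h * (D.p t * D.y * (D.p t)⁻¹) * (D.p h)⁻¹ := by group
    _ = _ := by rw [H.ty]; group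
lemma zz_t (h : B) : D.syl .zz (h * t) = D.syl .zz h * D.syl .zz h := by
  have h1 := H.zz_all h .yy h
  rw [H.zz_eq' (h * t), H.yy_t]
  calc cm D.a (D.syl .yy h * D.syl .yy h)
      = cm D.a (D.syl .yy h) * (D.syl .yy h * cm D.a (D.syl .yy h) * (D.syl .yy h)⁻¹) := by
        unfold cm; group
    _ = _ := by rw [← H.zz_eq', conj_eq h1]

lemma dbl (s : Ty) (hs : s = .yy ∨ s = .zz) (h : B) (b : Bool) :
    D.W (s, h, b) * D.W (s, h, b) = D.W (s, h * t, b) := by
  rcases hs with rfl | rfl <;> cases b <;> simp [Dat.W, sg, H.yy_t, H.zz_t]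

lemma swap (s x : Syl B) (hg : good s.1 x.1 = true) :
    D.W x * D.W s = D.W s * D.W x * D.P (cor s x) := by
  obtain ⟨ts, h, b⟩ := s
  obtain ⟨tx, k, c⟩ := x
  have cc : ∀ {u v : Γ}, Commute u v → sg c u * sg b v = sg b v * sg c u :=
    fun h => (sg_comm h c b).eq
  cases ts <;> cases tx <;> simp only [good, Bool.false_eq_true] at hg <;>
    simp only [Dat.W, cor, Dat.P_nil, Dat.P_cons, mul_one]
  · have h1 : cm (D.syl .ga k) (D.syl .al h) = (D.syl .xx (h * k))⁻¹ := by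
      rw [← H.al_ga]; unfold cm; group
    rw [swap_sg h1 (H.xx_ga _ _).inv_left (H.xx_al _ _).inv_left]
    congr 1
    cases (c == b) <;> simp [sg]
  · exact cc (H.al_de _ _).symm
  · exact cc (H.xx_al _ _)
  · exact cc (H.xx_ga _ _)
  · exact cc (H.yy_ga _ _)
  · exact cc (H.zz_all _ _ _)
  · exact swap_sg (H.ga_de _ _) (H.yy_ga _ _) (H.yy_de _ _) _ _
  · exact swap_sg (H.xx_de _ _) (H.zz_all _ _ _) (H.zz_all _ _ _) _ _
  · exact cc (H.yy_de _ _)
  · exact cc (H.zz_all _ _ _)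
  · exact cc (H.xx_xx _ _)
  · exact cc (H.xx_yy _ _).symm
  · exact cc (H.zz_all _ _ _)
  · exact cc (H.xx_yy _ _)
  · exact cc (H.yy_yy _ _)
  · exact cc (H.zz_all _ _ _)
  · exact cc (H.zz_all _ _ _).symm
  · exact cc (H.zz_all _ _ _).symm
  · exact cc (H.zz_all _ _ _)

lemma push_a (u v : B) (b : Bool) :
    sg b D.a * (D.p u * D.q v) = D.p u * D.q v * D.W (.al, u, b) := by
  have := H.c_a u⁻¹ v⁻¹
  rw [H.pi, H.qi, inv_inv, (H.pq u v).inv_inv.eq, ← mul_inv_rev, inv_inv] at this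
  cases b <;> simp only [Dat.W, sg, cond_true, cond_false] <;> rw [← this] <;> group
lemma push_g (u v : B) (b : Bool) :
    sg b D.g * (D.p u * D.q v) = D.p u * D.q v * D.W (.ga, u⁻¹ * v, b) := by
  have := H.c_g u⁻¹ v⁻¹
  rw [inv_inv, H.pi, H.qi, (H.pq u v).inv_inv.eq, ← mul_inv_rev, inv_inv] at this
  cases b <;> simp only [Dat.W, sg, cond_true, cond_false] <;> rw [← this] <;> group
lemma push_d (u v : B) (b : Bool) :
    sg b D.d * (D.p u * D.q v) = D.p u * D.q v * D.W (.de, v⁻¹, b) := by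
  have := H.c_d u⁻¹ v⁻¹
  rw [H.pi, H.qi, (H.pq u v).inv_inv.eq, ← mul_inv_rev, inv_inv] at this
  cases b <;> simp only [Dat.W, sg, cond_true, cond_false] <;> rw [← this] <;> group
lemma push_p (w u v : B) : D.p w * (D.p u * D.q v) = D.p (w * u) * D.q v := by
  rw [H.pm]; group
lemma push_q (w u v : B) : D.q w * (D.p u * D.q v) = D.p u * D.q (w * v) := by
  rw [H.qm, ← mul_assoc, ← (H.pq u w).eq]; group

end Rel
end rel

end H192Z.Iso
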