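import Pool.Agent.H192Z.Iso.Fill

set_option autoImplicit false
set_option linter.unusedSectionVars false

namespace H192Z.Iso

open FreeGroup (of mk_toWord)

abbrev FB := FreeGroup (Fin 2)
def tt : FB := of 0
def cc : FB := of 1
def rB : FB := (tt * tt)⁻¹ * (cc * tt * cc⁻¹)
def SB : Set FB := {rB}

@[simp] lemma nm_tt : nm tt = 1 := rfl
@[simp] lemma nm_cc : nm cc = 1 := rfl

lemma nm_pow_le {X : Type} [DecidableEq X] (u : FreeGroup X) (n : ℕ) : nm (u ^ n) ≤ n * nm u := by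
  induction n with
  | zero => simp
  | succ n ih => rw [pow_succ]; have := nm_mul (u ^ n) u; nlinarith

lemma nm3 {X : Type} [DecidableEq X] (u v w : FreeGroup X) :
    nm (u * v * w) ≤ nm u + nm v + nm w := by
  have := nm_mul (u * v) w
  have := nm_mul u v
  omega

lemma bs0 : Eqv SB 0 (tt * tt) (cc * tt * cc⁻¹) := N_rel rfl

lemma bs0' : Eqv SB 2 (cc * tt⁻¹ * cc⁻¹) (tt⁻¹ * tt⁻¹) := by
  have h := N_conj (N_rel (R := SB) (r := rB) rfl) (tt * tt)
  have h2 : nm (tt * tt) ≤ 2 := nm_mul tt tt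
  have h3 := N_mono (m' := 2) (by omega) h
  unfold Eqv
  convert h3 using 1
  unfold rB; group

def P1 (j : ℕ) : Prop :=
  ∀ k : ℤ, |k| ≤ 2 ^ j → ∃ W : FB, nm W ≤ 3 * j + 1 ∧ Eqv SB (3 * j + 3) (tt ^ k) W

def P2 (j : ℕ) : Prop :=
  ∀ k : ℤ, |k| ≤ 2 ^ j → Eqv SB (3 * j + 5) (cc * tt ^ k * cc⁻¹) (tt ^ (2 * k))

lemma P2_of_P1 {j : ℕ} (h : P1 j) : P2 j := by
  have key : ∀ k : ℤ, |k| ≤ 2 ^ j → ∀ a b : FB, Eqv SB 2 a b →
      Eqv SB (3 * j + 5) (a * (cc * tt ^ k * cc⁻¹)) (b * (cc * tt ^ k * cc⁻¹)) := by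
    intro k hk a b hab
    obtain ⟨W, hW, hE⟩ := h k hk
    have h1 : Eqv SB (3 * j + 5) (cc * tt ^ k * cc⁻¹) (cc * W * cc⁻¹) :=
      ((hE.left cc).right' cc⁻¹ (by simp))
    have h2 := nm3 cc W cc⁻¹
    exact hab.right_short h1 (by simp at h2; omega)
  intro k
  induction k using Int.induction_on with
  | zero => intro _; exact Eqv.of_eq (by simp)
  | succ k ih =>
    intro hk
    have hk' : |(k : ℤ)| ≤ 2 ^ j := by
      rw [abs_le] at hk ⊢; constructor <;> omega
    have h1 := key k hk' _ _ (bs0.symm.mono (by omega))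
    have h2 := (ih hk').left (tt * tt)
    exact (h1.trans h2).cast (by group) (by group)
  | pred k ih =>
    intro hk
    have hk' : |(-k : ℤ)| ≤ 2 ^ j := by
      rw [abs_le] at hk ⊢; constructor <;> omega
    have h1 := key (-k) hk' _ _ bs0'
    have h2 := (ih hk').left (tt⁻¹ * tt⁻¹)
    exact (h1.trans h2).cast (by group) (by group)

lemma P1_all (j : ℕ) : P1 j := by
  induction j with
  | zero =>
    intro k hk
    refine ⟨tt ^ k, ?_, Eqv.refl _ _⟩
    rw [abs_le] at hk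
    obtain ⟨h1, h2⟩ := hk
    norm_num at h1 h2
    interval_cases k <;> simp
  | succ j ih =>
    intro k hk
    have hk' : |k / 2| ≤ 2 ^ j := by
      rw [abs_le, pow_succ] at hk; rw [abs_le]; constructor <;> omega
    obtain ⟨W, hW, hE⟩ := ih _ hk'
    have h2 := P2_of_P1 ih _ hk'
    refine ⟨tt ^ (k % 2) * (cc * W * cc⁻¹), ?_, ?_⟩
    · have h3 := nm3 cc W cc⁻¹
      have h4 := nm_mul (tt ^ (k % 2)) (cc * W * cc⁻¹)
      have h5 : nm (tt ^ (k % 2)) ≤ 1 := by
        rcases Int.emod_two_eq_zero_or_one k with h | h <;> simp [h]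
      simp at h3; omega
    · have h1 : Eqv SB (3 * (j + 1) + 3) (cc * tt ^ (k / 2) * cc⁻¹) (cc * W * cc⁻¹) :=
        ((hE.left cc).right' cc⁻¹ (by simp only [nm_inv, nm_cc]; omega))
      have h3 := ((h2.symm.mono (by omega)).trans h1).left (tt ^ (k % 2))
      refine h3.cast ?_ rfl
      rw [← zpow_add]
      congr 1
      omega

lemma P2_all (j : ℕ) : P2 j := P2_of_P1 (P1_all j)

lemma P3 (a : ℕ) (e : ℤ) (he : |e| ≤ 1) :
    Eqv SB (3 * a + 5) (cc ^ a * tt ^ e * (cc ^ a)⁻¹) (tt ^ (e * 2 ^ a)) := by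
  induction a with
  | zero => exact Eqv.of_eq (by simp)
  | succ a ih =>
    have h1 := (ih.left cc).right' cc⁻¹ (m' := 3 * (a + 1) + 5) (by simp only [nm_inv, nm_cc]; omega)
    have h2 := P2_all a (e * 2 ^ a) (by
      rw [abs_mul, abs_of_pos (by positivity : (0 : ℤ) < 2 ^ a)]
      have : (0 : ℤ) < 2 ^ a := by positivity
      nlinarith)
    refine (h1.trans (h2.mono (by omega))).cast (by group) ?_
    congr 1; ring

lemma nf (L : List (Fin 2 × Bool)) : ∃ (a b : ℕ) (k : ℤ), a + b ≤ L.length ∧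
    |k| ≤ 2 ^ L.length ∧
    Eqv SB (10 * L.length + 10) (FreeGroup.mk L) ((cc ^ a)⁻¹ * tt ^ k * cc ^ b) := by
  induction L with
  | nil => exact ⟨0, 0, 0, by simp, by simp, Eqv.of_eq (by simp; rfl)⟩
  | cons s L ih =>
    obtain ⟨a, b, k, hab, hk, hE⟩ := ih
    have hpos : (0 : ℤ) < 2 ^ L.length := by positivity
    have hE' := (hE.left (lt s)).mono (m' := 10 * (L.length + 1) + 10) (by omega)
    rw [← mk_cons] at hE'
    simp only [List.length_cons]
    have ht : ∀ e : ℤ, |e| ≤ 1 → lt s = tt ^ e → ∃ (a b : ℕ) (k : ℤ), a + b ≤ L.length + 1 ∧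
        |k| ≤ 2 ^ (L.length + 1) ∧ Eqv SB (10 * (L.length + 1) + 10) (FreeGroup.mk (s :: L))
        ((cc ^ a)⁻¹ * tt ^ k * cc ^ b) := by
      intro e he hs
      refine ⟨a, b, e * 2 ^ a + k, by omega, ?_, hE'.trans ?_⟩
      · have h1 : (2 : ℤ) ^ a ≤ 2 ^ L.length := pow_le_pow_right₀ (by norm_num) (by omega)
        have h2 : |e * 2 ^ a| ≤ 2 ^ a := by
          rw [abs_mul, abs_of_pos (by positivity : (0 : ℤ) < 2 ^ a)]
          have : (0 : ℤ) < 2 ^ a := by positivity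
          nlinarith
        have h3 := abs_add_le (e * 2 ^ a) k
        rw [pow_succ]; omega
      · obtain ⟨W, hW, hW2⟩ := P1_all L.length k hk
        have h1 := nm_pow_le cc b
        have h2 := hW2.right' (cc ^ b) (m' := 10 * (L.length + 1) + 10) (by simp at h1; omega)
        have h3 := nm_mul W (cc ^ b)
        have h4 := ((P3 a e he).right_short h2 (by simp at h1; omega)).left (cc ^ a)⁻¹
        rw [hs]
        exact h4.cast (by group) (by group)
    obtain ⟨i, s⟩ := s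
    fin_cases i <;> cases s
    · exact ht (-1) (by simp) (by simp [lt_false, tt])
    · exact ht 1 (by simp) (by simp [lt_true, tt])
    · refine ⟨a + 1, b, k, by omega, by rw [pow_succ]; omega, hE'.trans (Eqv.of_eq ?_)⟩
      simp only [Fin.mk_one, lt_false]
      show cc⁻¹ * _ = _
      group
    · cases a with
      | zero =>
        refine ⟨0, b + 1, 2 * k, by omega, by rw [pow_succ, abs_mul]; simp; omega,
          hE'.trans ?_⟩
        have h1 := nm_pow_le cc (b + 1)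
        have h2 := (P2_all L.length k hk).right' (cc ^ (b + 1))
          (m' := 10 * (L.length + 1) + 10) (by simp at h1; omega)
        refine h2.cast ?_ (by group)
        simp only [Fin.mk_one, lt_true]
        show _ = cc * _
        group
      | succ a =>
        refine ⟨a, b, k, by omega, by rw [pow_succ]; omega, hE'.trans (Eqv.of_eq ?_)⟩
        simp only [Fin.mk_one, lt_true]
        show cc * _ = _
        group

def pT : Equiv.Perm ℚ := Equiv.addRight 1
def pC : Equiv.Perm ℚ := Equiv.mulLeft₀ 2 two_ne_zero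

def π0 : FB →* Equiv.Perm ℚ := FreeGroup.lift ![pT, pC]

lemma π0_tt : π0 tt = pT := by simp [π0, tt]
lemma π0_cc : π0 cc = pC := by simp [π0, cc]

lemma pT_zpow (k : ℤ) (x : ℚ) : (pT ^ k) x = x + k := by
  induction k using Int.induction_on generalizing x with
  | zero => simp
  | succ k ih => rw [zpow_add_one, Equiv.Perm.mul_apply, ih]; simp [pT]; ring
  | pred k ih =>
    rw [zpow_sub_one, Equiv.Perm.mul_apply, ih]; simp [pT]; ring

lemma pC_pow (a : ℕ) (x : ℚ) : (pC ^ a) x = 2 ^ a * x := by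
  induction a with
  | zero => simp
  | succ a ih => rw [pow_succ', Equiv.Perm.mul_apply, ih]; simp [pC]; ring

lemma pC_pow_inv (a : ℕ) (x : ℚ) : (pC ^ a)⁻¹ x = x / 2 ^ a := by
  rw [Equiv.Perm.inv_eq_iff_eq, pC_pow]; field_simp

lemma π0_rB : ∀ r ∈ SB, π0 r = 1 := by
  rintro r rfl
  ext x
  simp [rB, π0_tt, π0_cc, pT, pC, Equiv.Perm.mul_apply]
  ring

lemma π0_nf (a b : ℕ) (k : ℤ) (x : ℚ) :
    π0 ((cc ^ a)⁻¹ * tt ^ k * cc ^ b) x = (2 ^ b * x + k) / 2 ^ a := by
  simp only [map_mul, map_inv, map_pow, map_zpow, π0_tt, π0_cc, Equiv.Perm.mul_apply,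
    pC_pow_inv, pT_zpow, pC_pow]

lemma bs_diam (u : FB) (hu : π0 u = 1) : u ∈ N SB (10 * nm u + 10) := by
  obtain ⟨a, b, k, -, -, hE⟩ := nf u.toWord
  rw [mk_toWord] at hE
  have h1 := hE.map_eq π0 π0_rB
  rw [hu] at h1
  have h2 := π0_nf a b k 0
  have h3 := π0_nf a b k 1
  rw [← h1] at h2 h3
  simp only [Equiv.Perm.coe_one, id_eq] at h2 h3
  have hk : k = 0 := by
    have : (k : ℚ) = 0 := by field_simp at h2; simpa using h2.symm
    exact_mod_cast this
  have hab : a = b := by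
    rw [hk] at h3
    field_simp at h3
    have : (2 : ℚ) ^ a = 2 ^ b := by simpa using h3
    exact pow_right_injective₀ (by norm_num) (by norm_num) this
  rw [hk, hab] at hE
  rw [← Eqv.one_iff]
  exact hE.cast rfl (by simp)

lemma bs_exp (u : FB) (i : ℤ) (hu : π0 u = pT ^ i) : |i| ≤ 2 ^ nm u := by
  obtain ⟨a, b, k, -, hk, hE⟩ := nf u.toWord
  rw [mk_toWord] at hE
  have h1 := hE.map_eq π0 π0_rB
  have h2 := π0_nf a b k 0
  rw [← h1, hu, pT_zpow] at h2
  have h3 : (k : ℚ) = i * 2 ^ a := by field_simp at h2; linarith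
  have h4 : k = i * 2 ^ a := by exact_mod_cast h3
  have h5 : (1 : ℤ) ≤ 2 ^ a := one_le_pow₀ (by norm_num)
  rw [h4, abs_mul, abs_of_pos (by positivity : (0 : ℤ) < 2 ^ a)] at hk
  have := abs_nonneg i
  rw [nm_eq]
  nlinarith

abbrev B : Type := π0.range
def πB : FB →* B := π0.rangeRestrict
def tB : B := πB tt

lemma exists_rep (h : B) : ∃ u : FB, πB u = h ∧ ∀ v, πB v = h → nm u ≤ nm v := by
  classical
  have h0 : ∃ n, ∃ u : FB, πB u = h ∧ nm u = n := by
    obtain ⟨u, hu⟩ := π0.rangeRestrict_surjective h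
    exact ⟨_, u, hu, rfl⟩
  obtain ⟨u, hu, hn⟩ := Nat.find_spec h0
  exact ⟨u, hu, fun v hv => hn ▸ Nat.find_min' h0 ⟨v, hv, rfl⟩⟩

noncomputable def rep (h : B) : FB := (exists_rep h).choose
noncomputable def sz (h : B) : ℕ := nm (rep h)

lemma π_rep (h : B) : πB (rep h) = h := (exists_rep h).choose_spec.1
lemma sz_le (u : FB) : sz (πB u) ≤ nm u := (exists_rep _).choose_spec.2 u rfl
lemma sz_mul (h k : B) : sz (h * k) ≤ sz h + sz k := by
  have := sz_le (rep h * rep k)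
  rw [map_mul, π_rep, π_rep] at this
  exact this.trans (nm_mul _ _)
lemma sz_inv (h : B) : sz h⁻¹ ≤ sz h := by
  have := sz_le (rep h)⁻¹
  rw [map_inv, π_rep, nm_inv] at this
  exact this
lemma sz_one : sz 1 = 0 := by
  have := sz_le 1
  simpa using this
lemma rep_one : rep 1 = 1 := nm_eq_zero sz_one
lemma sz_tB : sz tB ≤ 1 := sz_le tt

lemma πB_eq_iff {u v : FB} : πB u = πB v ↔ π0 u = π0 v := Subtype.ext_iff

lemma bs_eqv {u v : FB} (h : πB u = πB v) : Eqv SB (10 * (nm u + nm v) + 10) u v := by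
  have h1 : π0 (u⁻¹ * v) = 1 := by
    rw [map_mul, map_inv, πB_eq_iff.mp h]; simp
  have h2 := nm_mul u⁻¹ v
  exact N_mono (by simp at h2; omega) (bs_diam _ h1)

lemma πB_rB : ∀ r ∈ SB, πB r = 1 := by
  intro r hr
  rw [← map_one πB, πB_eq_iff, π0_rB r hr, map_one]

lemma sz_tB_pow (j : ℕ) (i : ℤ) (hi : |i| ≤ 2 ^ j) : sz (tB ^ i) ≤ 3 * j + 1 := by
  obtain ⟨W, hW, hE⟩ := P1_all j i hi
  have := hE.map_eq πB πB_rB
  rw [map_zpow] at this
  rw [tB, this]
  exact (sz_le W).trans hW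

lemma tB_val (i : ℤ) : ((tB ^ i : B) : Equiv.Perm ℚ) = pT ^ i := by
  rw [SubgroupClass.coe_zpow, ← π0_tt]
  rfl

lemma tB_pow_bound (i : ℤ) : |i| ≤ 2 ^ sz (tB ^ i) := by
  apply bs_exp
  rw [← tB_val]
  exact congrArg Subtype.val (π_rep (tB ^ i))

noncomputable def lvl (h : B) : ℤ := ⌊-((h⁻¹ : B) : Equiv.Perm ℚ) 0⌋

lemma lvl_mul (h : B) (i : ℤ) : lvl (h * tB ^ i) = lvl h + i := by
  unfold lvl
  rw [mul_inv_rev, ← zpow_neg, Subgroup.coe_mul, Equiv.Perm.mul_apply, tB_val, pT_zpow,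
    ← Int.floor_add_intCast]
  congr 1
  push_cast; ring

lemma tB_inj {i j : ℤ} (h : tB ^ i = tB ^ j) : i = j := by
  have h1 := lvl_mul 1 i
  have h2 := lvl_mul 1 j
  rw [h] at h1
  omega

end H192Z.Iso
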