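import Mathlib

set_option autoImplicit false
set_option linter.unusedSectionVars false

namespace H192Z.Iso

open FreeGroup (of mk_toWord mul_mk inv_mk)

def nm {X : Type} [DecidableEq X] (u : FreeGroup X) : ℕ := FreeGroup.norm u

section nm
variable {X : Type} [DecidableEq X]
lemma nm_mul (u v : FreeGroup X) : nm (u * v) ≤ nm u + nm v := FreeGroup.norm_mul_le u v
@[simp] lemma nm_inv (u : FreeGroup X) : nm u⁻¹ = nm u := FreeGroup.norm_inv_eq
@[simp] lemma nm_one : nm (1 : FreeGroup X) = 0 := rfl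
@[simp] lemma nm_of (i : X) : nm (of i) = 1 := rfl
lemma nm_mk (L : List (X × Bool)) : nm (FreeGroup.mk L) ≤ L.length := FreeGroup.norm_mk_le
lemma nm_eq (u : FreeGroup X) : nm u = u.toWord.length := rfl
lemma nm_eq_zero {u : FreeGroup X} (h : nm u = 0) : u = 1 := FreeGroup.norm_eq_zero.mp h
end nm

section gen
variable {X : Type} [DecidableEq X] (R : Set (FreeGroup X))

/-- products of conjugates of relators with conjugators of length at most m -/
def N (m : ℕ) : Subgroup (FreeGroup X) :=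
  Subgroup.closure {x | ∃ u r, r ∈ R ∧ nm u ≤ m ∧ x = u * r * u⁻¹}

variable {R}

lemma N_mono {m m' : ℕ} (h : m ≤ m') : N R m ≤ N R m' := by
  apply Subgroup.closure_mono
  rintro x ⟨u, r, hr, hu, rfl⟩
  exact ⟨u, r, hr, hu.trans h, rfl⟩

lemma N_conj {m : ℕ} {x : FreeGroup X} (hx : x ∈ N R m) (q : FreeGroup X) :
    q * x * q⁻¹ ∈ N R (m + nm q) := by
  induction hx using Subgroup.closure_induction with
  | mem x hx =>
    obtain ⟨u, r, hr, hu, rfl⟩ := hx
    apply Subgroup.subset_closure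
    refine ⟨q * u, r, hr, ?_, by group⟩
    have := nm_mul q u
    omega
  | one => simp
  | mul x y _ _ hx hy =>
    have : q * (x * y) * q⁻¹ = (q * x * q⁻¹) * (q * y * q⁻¹) := by group
    rw [this]; exact Subgroup.mul_mem _ hx hy
  | inv x _ hx =>
    have : q * x⁻¹ * q⁻¹ = (q * x * q⁻¹)⁻¹ := by group
    rw [this]; exact Subgroup.inv_mem _ hx

lemma N_rel {r : FreeGroup X} (hr : r ∈ R) : r ∈ N R 0 :=
  Subgroup.subset_closure ⟨1, r, hr, by simp, by simp⟩

lemma N_le_nc (m : ℕ) : N R m ≤ Subgroup.normalClosure R := by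
  unfold N
  rw [Subgroup.closure_le]
  rintro x ⟨u, r, hr, -, rfl⟩
  exact Subgroup.normalClosure_normal.conj_mem _ (Subgroup.subset_normalClosure hr) u

variable (R)
def Eqv (m : ℕ) (a b : FreeGroup X) : Prop := a⁻¹ * b ∈ N R m
variable {R}

namespace Eqv
variable {m m' : ℕ} {a b c : FreeGroup X}

lemma refl (m : ℕ) (a : FreeGroup X) : Eqv R m a a := by simp [Eqv]
lemma of_eq (h : a = b) : Eqv R m a b := h ▸ refl m a
lemma symm (h : Eqv R m a b) : Eqv R m b a := by
  have := Subgroup.inv_mem _ h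
  simpa [Eqv] using this
lemma trans (h : Eqv R m a b) (h' : Eqv R m b c) : Eqv R m a c := by
  have := Subgroup.mul_mem _ h h'
  simpa [Eqv, mul_assoc] using this
lemma mono (h : Eqv R m a b) (hm : m ≤ m') : Eqv R m' a b := N_mono hm h
lemma left (h : Eqv R m a b) (p : FreeGroup X) : Eqv R m (p * a) (p * b) := by
  simpa [Eqv, mul_assoc] using h
lemma right (h : Eqv R m a b) (q : FreeGroup X) : Eqv R (m + nm q) (a * q) (b * q) := by
  have := N_conj h q⁻¹
  rw [nm_inv] at this
  simpa [Eqv, mul_assoc] using this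
lemma right' (h : Eqv R m a b) (q : FreeGroup X) (hm : m + nm q ≤ m') :
    Eqv R m' (a * q) (b * q) := (h.right q).mono hm
lemma cast {a' b' : FreeGroup X} (h : Eqv R m a b) (ha : a = a') (hb : b = b') :
    Eqv R m a' b' := ha ▸ hb ▸ h
/-- replace a factor in front of a long suffix that is equivalent to a short one -/
lemma right_short {q q' : FreeGroup X} (h : Eqv R m a b) (hq : Eqv R m' q q')
    (hm : m + nm q' ≤ m') : Eqv R m' (a * q) (b * q) :=
  ((hq.left a).trans (h.right' q' hm)).trans (hq.left b).symm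
lemma mem_nc (h : Eqv R m a b) (ha : a ∈ Subgroup.normalClosure R) :
    b ∈ Subgroup.normalClosure R := by
  have := Subgroup.mul_mem _ ha (N_le_nc m h)
  simpa using this
lemma one_iff : Eqv R m a 1 ↔ a ∈ N R m := by simp [Eqv]
lemma map_eq {G : Type} [Group G] (f : FreeGroup X →* G) (hf : ∀ r ∈ R, f r = 1)
    (h : Eqv R m a b) : f a = f b := by
  have h1 : Subgroup.normalClosure R ≤ f.ker :=
    Subgroup.normalClosure_le_normal (fun r hr => hf r hr)
  have h2 := h1 (N_le_nc m h)
  rw [MonoidHom.mem_ker, map_mul, map_inv] at h2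
  exact inv_mul_eq_one.mp h2

/-- commuting with an element gives commuting with its inverse -/
lemma comm_inv {x s : FreeGroup X} (h : Eqv R m (x * s) (s * x)) :
    Eqv R (m + nm s) (x * s⁻¹) (s⁻¹ * x) := by
  have h1 := ((h.right s⁻¹).left s⁻¹).symm
  rw [nm_inv] at h1
  exact h1.cast (by group) (by group)
end Eqv

lemma eqv_of_comm_rel {x s : FreeGroup X} (h : x⁻¹ * s⁻¹ * x * s ∈ R) :
    Eqv R 0 (x * s) (s * x) := by
  apply Eqv.symm
  have := N_rel h
  simpa [Eqv, mul_assoc] using this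

lemma norm_prod_le {K : ℕ} (l : List (FreeGroup X)) (h : ∀ x ∈ l, nm x ≤ K) :
    nm l.prod ≤ K * l.length := by
  induction l with
  | nil => simp
  | cons x l ih =>
    have h1 := nm_mul x l.prod
    have h2 := h x (by simp)
    have h3 := ih (fun y hy => h y (by simp [hy]))
    simp only [List.prod_cons, List.length_cons]
    nlinarith

lemma comm_list {m K : ℕ} (x : FreeGroup X) (l : List (FreeGroup X))
    (h : ∀ s ∈ l, Eqv R m (x * s) (s * x)) (hK : ∀ s ∈ l, nm s ≤ K) :
    Eqv R (m + K * l.length) (x * l.prod) (l.prod * x) := by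
  induction l with
  | nil => simpa using Eqv.refl _ _
  | cons s l ih =>
    have h1 := ih (fun y hy => h y (by simp [hy])) (fun y hy => hK y (by simp [hy]))
    have h2 := (h s (by simp)).right l.prod
    have h3 := norm_prod_le l (fun y hy => hK y (by simp [hy]))
    simp only [List.prod_cons, List.length_cons]
    refine ((h2.mono (by nlinarith)).cast (by group) rfl).trans ?_
    exact ((h1.left s).mono (by nlinarith)).cast (by group) (by group)

lemma perm_prod {m K : ℕ} {l l' : List (FreeGroup X)} (hp : l.Perm l')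
    (h : ∀ s ∈ l, ∀ x ∈ l, Eqv R m (x * s) (s * x)) (hK : ∀ s ∈ l, nm s ≤ K) :
    Eqv R (m + K * l.length) l.prod l'.prod := by
  induction hp with
  | nil => exact Eqv.refl _ _
  | cons x _ ih =>
    simp only [List.prod_cons, List.length_cons]
    exact ((ih (fun s hs y hy => h s (by simp [hs]) y (by simp [hy]))
      (fun s hs => hK s (by simp [hs]))).left x).mono (by nlinarith)
  | swap x y l =>
    have h1 := (h x (by simp) y (by simp)).right l.prod
    have h3 := norm_prod_le l (fun y hy => hK y (by simp [hy]))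
    simp only [List.prod_cons, List.length_cons]
    exact (h1.mono (by nlinarith)).cast (by group) (by group)
  | trans h1 _ ih1 ih2 =>
    refine (ih1 h hK).trans ?_
    rw [h1.length_eq]
    exact ih2 (fun s hs y hy => h s (h1.symm.subset hs) y (h1.symm.subset hy))
      (fun s hs => hK s (h1.symm.subset hs))

/-- conversion to the list form -/
lemma N_list {m : ℕ} {x : FreeGroup X} (hx : x ∈ N R m) :
    ∃ l : List (List (X × Bool) × FreeGroup X),
      (∀ p ∈ l, (p.2 ∈ R ∨ p.2⁻¹ ∈ R) ∧ p.1.length ≤ m) ∧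
      x = (l.map (fun p => FreeGroup.mk p.1 * p.2 * (FreeGroup.mk p.1)⁻¹)).prod := by
  induction hx using Subgroup.closure_induction_left with
  | one => exact ⟨[], by simp, by simp⟩
  | mul_left x hx y _ ih =>
    obtain ⟨u, r, hr, hu, rfl⟩ := hx
    obtain ⟨l, hl, rfl⟩ := ih
    refine ⟨(u.toWord, r) :: l, ?_, by simp only [List.map_cons, List.prod_cons, mk_toWord]⟩
    intro p hp
    rcases List.mem_cons.mp hp with rfl | hp
    · exact ⟨Or.inl hr, hu⟩
    · exact hl p hp
  | inv_mul_cancel x hx y _ ih =>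
    obtain ⟨u, r, hr, hu, rfl⟩ := hx
    obtain ⟨l, hl, rfl⟩ := ih
    refine ⟨(u.toWord, r⁻¹) :: l, ?_, by
      simp only [List.map_cons, List.prod_cons, mk_toWord]; group⟩
    intro p hp
    rcases List.mem_cons.mp hp with rfl | hp
    · exact ⟨Or.inr (by simpa using hr), hu⟩
    · exact hl p hp

lemma norm_map_le {Y : Type} [DecidableEq Y] (f : Y → X) (u : FreeGroup Y) :
    nm (FreeGroup.map f u) ≤ nm u := by
  conv_lhs => rw [← mk_toWord (x := u), FreeGroup.map.mk]
  exact (nm_mk _).trans (by simp [nm_eq])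

lemma N_map {Y : Type} [DecidableEq Y] {S : Set (FreeGroup Y)} (f : Y → X)
    (hS : ∀ r ∈ S, FreeGroup.map f r ∈ R) {m : ℕ} {x : FreeGroup Y} (hx : x ∈ N S m) :
    FreeGroup.map f x ∈ N R m := by
  induction hx using Subgroup.closure_induction with
  | mem x hx =>
    obtain ⟨u, r, hr, hu, rfl⟩ := hx
    apply Subgroup.subset_closure
    exact ⟨FreeGroup.map f u, FreeGroup.map f r, hS r hr, (norm_map_le f u).trans hu, by simp⟩
  | one => simp
  | mul x y _ _ hx hy => rw [map_mul]; exact Subgroup.mul_mem _ hx hy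
  | inv x _ hx => rw [map_inv]; exact Subgroup.inv_mem _ hx

lemma Eqv.map {Y : Type} [DecidableEq Y] {S : Set (FreeGroup Y)} (f : Y → X)
    (hS : ∀ r ∈ S, FreeGroup.map f r ∈ R) {m : ℕ} {a b : FreeGroup Y} (h : Eqv S m a b) :
    Eqv R m (FreeGroup.map f a) (FreeGroup.map f b) := by
  have := N_map f hS h
  simpa [Eqv] using this

/-- a letter with sign -/
def lt (s : X × Bool) : FreeGroup X := FreeGroup.mk [s]

lemma mk_cons (s : X × Bool) (L : List (X × Bool)) :
    FreeGroup.mk (s :: L) = lt s * FreeGroup.mk L := by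
  rw [lt, mul_mk]; rfl

lemma lt_true (i : X) : lt (i, true) = of i := rfl
lemma lt_false (i : X) : lt (i, false) = (of i)⁻¹ := by
  rw [lt, of, inv_mk]; rfl

lemma norm_lt (s : X × Bool) : nm (lt s) ≤ 1 := nm_mk _

lemma mk_eq_prod (L : List (X × Bool)) : FreeGroup.mk L = (L.map lt).prod := by
  induction L with
  | nil => rfl
  | cons s L ih => rw [mk_cons, ih]; rfl

/-- letterwise commutation -/
lemma comm_map {Y : Type} [DecidableEq Y] (f : Y → X) {m : ℕ} (x : FreeGroup X)
    (h : ∀ i, Eqv R m (x * of (f i)) (of (f i) * x)) (u : FreeGroup Y) :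
    Eqv R (m + 1 + nm u) (x * FreeGroup.map f u) (FreeGroup.map f u * x) := by
  have h1 : FreeGroup.map f u = ((u.toWord.map fun s => (f s.1, s.2)).map lt).prod := by
    conv_lhs => rw [← mk_toWord (x := u), FreeGroup.map.mk, mk_eq_prod]
  have h2 := comm_list (R := R) (m := m + 1) (K := 1) x
    ((u.toWord.map fun s => (f s.1, s.2)).map lt) ?_ ?_
  · rw [← h1] at h2
    simpa [nm_eq] using h2
  · intro s hs
    simp only [List.mem_map] at hs
    obtain ⟨_, ⟨⟨i, b⟩, -, rfl⟩, rfl⟩ := hs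
    cases b
    · rw [lt_false]
      simpa using (h i).comm_inv
    · rw [lt_true]
      exact (h i).mono (by omega)
  · intro s hs
    simp only [List.mem_map] at hs
    obtain ⟨s, -, rfl⟩ := hs
    exact norm_lt s

end gen

/-- polynomially bounded functions with respect to a size function -/
def PB {ι : Type} (σ : ι → ℕ) (f : ι → ℕ) : Prop := ∃ C k : ℕ, ∀ i, f i ≤ C * (σ i + 1) ^ k

namespace PB
variable {ι : Type} {σ : ι → ℕ} {f g : ι → ℕ}

lemma const (c : ℕ) : PB σ (fun _ => c) := ⟨c, 0, fun _ => by simp⟩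
lemma self : PB σ σ := ⟨1, 1, fun _ => by simp⟩
lemma mono (h : PB σ g) (hfg : ∀ i, f i ≤ g i) : PB σ f := by
  obtain ⟨C, k, h⟩ := h
  exact ⟨C, k, fun i => (hfg i).trans (h i)⟩
lemma add (hf : PB σ f) (hg : PB σ g) : PB σ (fun i => f i + g i) := by
  obtain ⟨C, k, hf⟩ := hf
  obtain ⟨C', k', hg⟩ := hg
  refine ⟨C + C', k + k', fun i => ?_⟩
  have h1 : (σ i + 1) ^ k ≤ (σ i + 1) ^ (k + k') := Nat.pow_le_pow_right (by omega) (by omega)
  have h2 : (σ i + 1) ^ k' ≤ (σ i + 1) ^ (k + k') := Nat.pow_le_pow_right (by omega) (by omega)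
  have h3 := hf i
  have h4 := hg i
  have h5 := Nat.mul_le_mul_left C h1
  have h6 := Nat.mul_le_mul_left C' h2
  show f i + g i ≤ _
  rw [add_mul]; omega
lemma mul (hf : PB σ f) (hg : PB σ g) : PB σ (fun i => f i * g i) := by
  obtain ⟨C, k, hf⟩ := hf
  obtain ⟨C', k', hg⟩ := hg
  refine ⟨C * C', k + k', fun i => ?_⟩
  have := Nat.mul_le_mul (hf i) (hg i)
  calc f i * g i ≤ _ := this
    _ = _ := by rw [pow_add]; ring
lemma pow (hf : PB σ f) (k : ℕ) : PB σ (fun i => f i ^ k) := by
  induction k with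
  | zero => simpa using const 1
  | succ k ih => simpa [pow_succ] using ih.mul hf
lemma poly (hf : PB σ f) (C k : ℕ) : PB σ (fun i => C * (f i + 1) ^ k) :=
  (const C).mul ((hf.add (const 1)).pow k)
end PB

section star
variable {X : Type} [DecidableEq X] (R : Set (FreeGroup X)) {ι : Type} (σ : ι → ℕ)

/-- polynomially bounded families of words -/
def Sh : Subgroup (ι → FreeGroup X) where
  carrier := {u | PB σ (fun i => nm (u i))}
  one_mem' := (PB.const 0).mono (fun _ => by simp)
  mul_mem' := fun {u v} hu hv => (PB.add hu hv).mono (fun i => nm_mul _ _)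
  inv_mem' := fun {u} hu => PB.mono hu (fun i => by simp)

/-- families with polynomially bounded filling diameter -/
def Tr : Subgroup (Sh (X := X) σ) where
  carrier := {u | ∃ m, PB σ m ∧ ∀ i, u.1 i ∈ N R (m i)}
  one_mem' := ⟨fun _ => 0, PB.const 0, fun _ => Subgroup.one_mem _⟩
  mul_mem' := by
    rintro u v ⟨m, hm, hu⟩ ⟨m', hm', hv⟩
    exact ⟨fun i => m i + m' i, hm.add hm', fun i => Subgroup.mul_mem _
      (N_mono (Nat.le_add_right _ _) (hu i)) (N_mono (Nat.le_add_left _ _) (hv i))⟩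
  inv_mem' := by
    rintro u ⟨m, hm, hu⟩
    exact ⟨m, hm, fun i => Subgroup.inv_mem _ (hu i)⟩

instance Tr_normal : (Tr R σ).Normal := ⟨by
  rintro u ⟨m, hm, hu⟩ q
  exact ⟨fun i => m i + nm (q.1 i), hm.add q.2, fun i => N_conj (hu i) _⟩⟩

abbrev GS := Sh (X := X) σ ⧸ Tr R σ

def mkS : Sh (X := X) σ →* GS R σ := QuotientGroup.mk' _

lemma mkS_eq {u v : Sh (X := X) σ} :
    mkS R σ u = mkS R σ v ↔ ∃ m, PB σ m ∧ ∀ i, Eqv R (m i) (u.1 i) (v.1 i) := by
  show ((u : GS R σ) = (v : GS R σ)) ↔ _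
  rw [QuotientGroup.eq]
  rfl

def evS (i : ι) : Sh (X := X) σ →* FreeGroup X :=
  (Pi.evalMonoidHom (fun _ => FreeGroup X) i).comp (Sh σ).subtype

def cst (u : FreeGroup X) : Sh (X := X) σ := ⟨fun _ => u, PB.const _⟩

end star

end H192Z.Iso
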