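import Pool.Agent.H192Z.Iso.Main

set_option autoImplicit false

namespace H192Z.Iso

open FreeGroup (of mk_toWord)

lemma PB_lt {f : ℕ → ℕ} (hf : PB id f) : ∃ n, f n < 2 ^ n := by
  obtain ⟨C, k, h⟩ := hf
  have h1 := tendsto_pow_const_div_const_pow_of_one_lt k (r := 2) (by norm_num)
  have h2 := (h1.comp (Filter.tendsto_add_atTop_nat 1)).const_mul (2 * C : ℝ)
  rw [mul_zero] at h2
  obtain ⟨n, hn⟩ := (h2.eventually (gt_mem_nhds (by norm_num : (0 : ℝ) < 1))).exists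
  refine ⟨n, (h n).trans_lt ?_⟩
  simp only [Function.comp] at hn
  rw [← mul_div_assoc, div_lt_one (by positivity), pow_succ] at hn
  have h3 : (C : ℝ) * ((n + 1 : ℕ) : ℝ) ^ k < 2 ^ n := by linarith
  simp only [id]
  exact_mod_cast h3

theorem final : ¬ ∃ a : ℝ, 1 < a ∧ ∃ C : ℕ, 1 ≤ C ∧
        ∀ n m : ℕ,
          (∀ w : List (Fin 7 × Bool), w.length ≤ C * n →
            FreeGroup.mk w ∈ Subgroup.normalClosure (RF : Set (FreeGroup (Fin 7))) →
            ∃ l : List (List (Fin 7 × Bool) × FreeGroup (Fin 7)),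
              (∀ p ∈ l, (p.2 ∈ RF ∨ p.2⁻¹ ∈ RF) ∧ p.1.length ≤ m) ∧
              FreeGroup.mk w =
                (l.map (fun p => FreeGroup.mk p.1 * p.2 * (FreeGroup.mk p.1)⁻¹)).prod) →
          ∀ w : List (Fin 7 × Bool), w.length ≤ n →
            FreeGroup.mk w ∈ Subgroup.normalClosure (RF : Set (FreeGroup (Fin 7))) →
            ∃ l : List (List (Fin 7 × Bool) × FreeGroup (Fin 7)),
              (∀ p ∈ l, p.2 ∈ RF ∨ p.2⁻¹ ∈ RF) ∧
              (l.length : ℝ) ≤ (C : ℝ) * a ^ m + (C : ℝ) * (n : ℝ) + (C : ℝ) ∧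
              FreeGroup.mk w =
                (l.map (fun p => FreeGroup.mk p.1 * p.2 * (FreeGroup.mk p.1)⁻¹)).prod := by
  rintro ⟨a, ha, C, hC, h⟩
  obtain ⟨M, hM, hD⟩ := diam_poly
  obtain ⟨μ, -, H⟩ := exists_loc
  obtain ⟨s, hs⟩ : ∃ s : ℕ, a ≤ 2 ^ s := by
    obtain ⟨s, hs⟩ := pow_unbounded_of_one_lt a (by norm_num : (1 : ℝ) < 2)
    exact ⟨s, hs.le⟩
  have hid : PB id (fun n : ℕ => n) := PB.self
  have hN : PB id (fun n : ℕ => 12 * n + 14) := ((PB.const 12).mul hid).add (PB.const 14)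
  obtain ⟨n, hn⟩ := PB_lt (f := fun n => s * M (C * (12 * n + 14)) + C * (12 * n + 14 + 2))
    (((PB.const s).mul (hM.comp ((PB.const C).mul hN))).add
      ((PB.const C).mul (hN.add (PB.const 2))))
  set u : F := DF.syl .zz (tB ^ ((2 ^ n : ℕ) : ℤ)) with hu
  have hu1 : u.toWord.length ≤ 12 * n + 14 := by
    have h1 := nm_W (.zz, tB ^ ((2 ^ n : ℕ) : ℤ), true)
    have h2 := sz_tB_pow n ((2 ^ n : ℕ) : ℤ) (by rw [abs_of_nonneg (by positivity)]; simp)
    have h3 : nm u = nm (DF.W (.zz, tB ^ ((2 ^ n : ℕ) : ℤ), true)) := rfl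
    rw [← nm_eq]
    simp only at h1
    omega
  have hu2 : u ∈ Subgroup.normalClosure RS :=
    (zkill H n true (2 ^ n) le_rfl).symm.mem_nc (Subgroup.one_mem _)
  obtain ⟨l, hl1, hl2, hl3⟩ := h (12 * n + 14) (M (C * (12 * n + 14)))
    (fun w hw hnc => N_list (hD _ w hw hnc)) u.toWord hu1 (by rw [mk_toWord]; exact hu2)
  rw [mk_toWord] at hl3
  have h4 := area_lb (2 ^ n) l hl1 hl3
  set m := M (C * (12 * n + 14)) with hm
  have h5 : a ^ m ≤ 2 ^ (s * m) := by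
    rw [pow_mul]; exact pow_le_pow_left₀ (by linarith) hs m
  have h6 : (l.length : ℝ) ≤ C * 2 ^ (s * m) + C * ((12 * n + 14 : ℕ) : ℝ) + C := by
    have : (C : ℝ) * a ^ m ≤ C * 2 ^ (s * m) := mul_le_mul_of_nonneg_left h5 (by positivity)
    linarith
  have h7 : l.length ≤ C * 2 ^ (s * m) + C * (12 * n + 14) + C := by exact_mod_cast h6
  have h8 : 1 ≤ 2 ^ (s * m) := Nat.one_le_two_pow
  have h9 : C * (12 * n + 14 + 2) < 2 ^ (C * (12 * n + 14 + 2)) := Nat.lt_two_pow_self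
  have h10 : C * 2 ^ (s * m) + C * (12 * n + 14) + C ≤ 2 ^ (s * m) * (C * (12 * n + 14 + 2)) := by
    nlinarith [Nat.mul_le_mul_left (C * (12 * n + 14)) h8, Nat.mul_le_mul_left C h8]
  have h11 : 2 ^ (s * m) * (C * (12 * n + 14 + 2)) <
      2 ^ (s * m + C * (12 * n + 14 + 2)) := by
    rw [pow_add]; exact Nat.mul_lt_mul_of_pos_left h9 (by positivity)
  have h12 : 2 ^ (s * m + C * (12 * n + 14 + 2)) ≤ 2 ^ (2 ^ n) :=
    Nat.pow_le_pow_right (by norm_num) hn.le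
  omega

end H192Z.Iso
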