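import Pool.Agent.H192Z.Iso.Model

set_option autoImplicit false
set_option linter.unusedSectionVars false

namespace H192Z.Iso

open FreeGroup (of mk_toWord)

structure Loc (μ : ℕ → ℕ) : Prop where
  swap : ∀ (L : ℕ) (s x : Syl B), good s.1 x.1 = true → sz s.2.1 ≤ L → sz x.2.1 ≤ L →
    Eqv RS (μ L) (DF.W x * DF.W s) (DF.W s * DF.W x * DF.P (cor s x))
  dbl : ∀ (L : ℕ) (s : Ty) (h : B) (b : Bool), (s = .yy ∨ s = .zz) → sz h ≤ L →
    Eqv RS (μ L) (DF.W (s, h, b) * DF.W (s, h, b)) (DF.W (s, h * tB, b))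
  push : ∀ (L : ℕ) (s : Fin 7 × Bool) (u v : B), sz u ≤ L → sz v ≤ L →
    Eqv RS (μ L) (lt s * (DF.p u * DF.q v))
      (DF.p (stepU id s u) * DF.q (stepV id s v) * DF.P (stepL s u v))

lemma exists_loc : ∃ μ, PB id μ ∧ Loc μ := by
  obtain ⟨μ1, h1, H1⟩ := loc_swap
  obtain ⟨μ2, h2, H2⟩ := loc_dbl
  obtain ⟨μ3, h3, H3⟩ := loc_push
  exact ⟨fun L => μ1 L + μ2 L + μ3 L, (h1.add h2).add h3,
    fun L s x a b c => (H1 L s x a b c).mono (by omega),
    fun L s h b a c => (H2 L s h b a c).mono (by omega),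
    fun L s u v a b => (H3 L s u v a b).mono (by omega)⟩

lemma nm_P {L : ℕ} {l : List (Syl B)} (h : ∀ s ∈ l, sz s.2.1 ≤ L) :
    nm (DF.P l) ≤ (4 * L + 10) * l.length := by
  have := norm_prod_le (K := 4 * L + 10) (l.map DF.W) (by
    intro x hx
    obtain ⟨s, hs, rfl⟩ := List.mem_map.mp hx
    have := nm_W s
    have := h s hs
    omega)
  rw [List.length_map] at this
  exact this

lemma cor_spec (s x : Syl B) : (cor s x).length ≤ 1 ∧
    ∀ c ∈ cor s x, sz c.2.1 ≤ sz s.2.1 + sz x.2.1 := by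
  obtain ⟨t, h, b⟩ := s
  obtain ⟨t', h', b'⟩ := x
  have h1 := sz_mul h h'
  have h2 := sz_mul h' h
  cases t <;> cases t' <;> simp [cor] <;> omega

section phases
variable {μ : ℕ → ℕ} (H : Loc μ)
include H

lemma ph1 (n : ℕ) (w : List (Fin 7 × Bool)) (hw : w.length ≤ n) :
    ∃ (u v : B) (l : List (Syl B)), sz u ≤ w.length ∧ sz v ≤ w.length ∧ l.length ≤ w.length ∧
      (∀ y ∈ l, fr y.1 ∧ sz y.2.1 ≤ 2 * n) ∧
      Eqv RS (μ n + (8 * n + 10) * n) (FreeGroup.mk w) (DF.p u * DF.q v * DF.P l) := by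
  induction w with
  | nil =>
    exact ⟨1, 1, [], by simp [sz_one], by simp [sz_one], by simp, by simp,
      Eqv.of_eq (by simp [p_one, q_one]; rfl)⟩
  | cons s w ih =>
    simp only [List.length_cons] at hw ⊢
    obtain ⟨u, v, l, hu, hv, hl, hl2, hE⟩ := ih (by omega)
    obtain ⟨h1, h2⟩ := stepL_spec s u v
    have h3 := sz_stepU s u
    have h4 := sz_stepV s v
    refine ⟨stepU id s u, stepV id s v, stepL s u v ++ l, by omega, by omega,
      by simp only [List.length_append]; omega, ?_, ?_⟩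
    · intro y hy
      rcases List.mem_append.mp hy with hy | hy
      · exact ⟨(h2 y hy).1, by have := (h2 y hy).2; omega⟩
      · exact hl2 y hy
    · rw [mk_cons]
      refine (hE.left _).trans ?_
      have h5 := nm_P (L := 2 * n) (fun s hs => (hl2 s hs).2)
      have h6 := (H.push n s u v (by omega) (by omega)).right' (DF.P l)
        (m' := μ n + (8 * n + 10) * n) (by nlinarith)
      exact h6.cast (by group) (by simp only [Dat.P_append]; group)

section collect
variable (τ : Ty) (In Out : Ty → Prop)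
  (hin : ∀ t, In t → t ≠ τ → good τ t = true ∧ Out t)
  (hcor : ∀ s x : Syl B, s.1 = τ → In x.1 → x.1 ≠ τ → ∀ c ∈ cor s x,
    Out c.1 ∧ good τ c.1 = true ∧ ∀ s' : Syl B, s'.1 = τ → cor s' c = [])
include hin hcor

lemma pass (L : ℕ) (x : Syl B) (hx : In x.1) (hx' : x.1 ≠ τ) (hxL : sz x.2.1 ≤ L)
    (A : List (Syl B)) (hA : ∀ s ∈ A, s.1 = τ ∧ sz s.2.1 ≤ L) :
    ∃ cs : List (Syl B), cs.length ≤ A.length ∧ (∀ c ∈ cs, Out c.1 ∧ sz c.2.1 ≤ 2 * L) ∧
      Eqv RS (μ (2 * L) + 2 * (8 * L + 10) * A.length) (DF.W x * DF.P A)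
        (DF.P A * DF.W x * DF.P cs) := by
  induction A with
  | nil => exact ⟨[], by simp, by simp, Eqv.of_eq (by simp)⟩
  | cons a A ih =>
    obtain ⟨cs, h1, h2, h3⟩ := ih (fun s hs => hA s (by simp [hs]))
    obtain ⟨ha, haL⟩ := hA a (by simp)
    obtain ⟨h4, h5⟩ := cor_spec a x
    have h6 : ∀ c ∈ cor a x, sz c.2.1 ≤ 2 * L := fun c hc => by have := h5 c hc; omega
    have h7 := hcor a x ha hx hx'
    refine ⟨cs ++ cor a x, by simp only [List.length_append, List.length_cons]; omega, ?_, ?_⟩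
    · intro c hc
      rcases List.mem_append.mp hc with hc | hc
      · exact h2 c hc
      · exact ⟨(h7 c hc).1, h6 c hc⟩
    · have hA2 : ∀ s ∈ A, sz s.2.1 ≤ 2 * L := fun s hs => by
        have := (hA s (by simp [hs])).2; omega
      have n1 := nm_P hA2
      have n2 := nm_P h6
      have e1 := (H.swap (2 * L) a x (by rw [ha]; exact (hin _ hx hx').1) (by omega)
        (by omega)).right (DF.P A)
      have e2 := comm_list (R := RS) (m := μ (2 * L)) (K := 8 * L + 10) (DF.P (cor a x))
        (A.map DF.W) (by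
          intro y hy
          obtain ⟨s, hs, rfl⟩ := List.mem_map.mp hy
          have hs1 := (hA s (by simp [hs])).1
          rcases hc : cor a x with _ | ⟨c, _ | ⟨c', r⟩⟩
          · exact Eqv.of_eq (by simp)
          · have hm : c ∈ cor a x := by simp [hc]
            have := H.swap (2 * L) s c (by rw [hs1]; exact (h7 c hm).2.1) (hA2 s hs) (h6 c hm)
            rw [(h7 c hm).2.2 s hs1] at this
            simpa using this
          · rw [hc] at h4; simp at h4) (by
          intro y hy
          obtain ⟨s, hs, rfl⟩ := List.mem_map.mp hy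
          have := nm_W s
          have := hA2 s hs
          omega)
      rw [List.length_map] at e2
      have e3 := h3.right (DF.P (cor a x))
      simp only [List.length_cons, Dat.P_cons, Dat.P_append]
      refine ((e1.mono (by nlinarith)).cast (by group) rfl).trans ?_
      refine (((e2.left (DF.W a * DF.W x)).mono (by nlinarith)).cast
        (by unfold Dat.P; group) rfl).trans ?_
      exact ((e3.left (DF.W a)).mono (by nlinarith)).cast (by unfold Dat.P; group) (by group)

lemma collect (L : ℕ) (l : List (Syl B)) (hl : ∀ s ∈ l, In s.1 ∧ sz s.2.1 ≤ L) :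
    ∃ l' : List (Syl B), l'.length ≤ l.length ^ 2 ∧ (∀ c ∈ l', Out c.1 ∧ sz c.2.1 ≤ 2 * L) ∧
      Eqv RS (μ (2 * L) + 2 * (8 * L + 10) * l.length + (8 * L + 10) * l.length ^ 2) (DF.P l)
        (DF.P (l.filter (fun s => s.1 = τ)) * DF.P l') := by
  induction l with
  | nil => exact ⟨[], by simp, by simp, Eqv.of_eq (by simp)⟩
  | cons x l ih =>
    obtain ⟨l', h1, h2, h3⟩ := ih (fun s hs => hl s (by simp [hs]))
    obtain ⟨hx, hxL⟩ := hl x (by simp)
    have h4 := (h3.left (DF.W x)).mono (m' := μ (2 * L) + 2 * (8 * L + 10) * (l.length + 1) +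
      (8 * L + 10) * (l.length + 1) ^ 2) (by nlinarith)
    simp only [List.length_cons, Dat.P_cons, List.filter_cons]
    by_cases hxt : x.1 = τ
    · refine ⟨l', h1.trans (Nat.pow_le_pow_left (by omega) 2), h2, h4.cast rfl ?_⟩
      simp [hxt, mul_assoc]
    · have hf : (l.filter (fun s => s.1 = τ)).length ≤ l.length := List.length_filter_le _ _
      obtain ⟨cs, c1, c2, c3⟩ := pass H τ In Out hin hcor L x hx hxt hxL
        (l.filter (fun s => s.1 = τ)) (fun s hs => by
          obtain ⟨h5, h6⟩ := List.mem_filter.mp hs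
          exact ⟨by simpa using h6, (hl s (by simp [h5])).2⟩)
      refine ⟨x :: (cs ++ l'), by simp only [List.length_cons, List.length_append]; nlinarith,
        ?_, h4.trans ?_⟩
      · intro c hc
        rcases List.mem_cons.mp hc with rfl | hc
        · exact ⟨(hin _ hx hxt).2, by omega⟩
        · rcases List.mem_append.mp hc with hc | hc
          · exact c2 c hc
          · exact h2 c hc
      · have n1 := nm_P (fun c hc => (h2 c hc).2)
        have n2 : (4 * (2 * L) + 10) * l'.length ≤ (8 * L + 10) * l.length ^ 2 := by nlinarith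
        have n3 : 2 * (8 * L + 10) * (l.filter (fun s => s.1 = τ)).length ≤
          2 * (8 * L + 10) * l.length := Nat.mul_le_mul_left _ hf
        refine ((c3.right (DF.P l')).mono (by nlinarith)).cast (by group) ?_
        simp [hxt, mul_assoc]

lemma phase (hτ : fr τ) (L n : ℕ) (l : List (Syl B)) (hn : l.length ≤ n)
    (hl : ∀ s ∈ l, In s.1 ∧ sz s.2.1 ≤ L) (hw : DF.P l ∈ Subgroup.normalClosure RS) :
    ∃ l' : List (Syl B), l'.length ≤ n ^ 2 ∧ (∀ c ∈ l', Out c.1 ∧ sz c.2.1 ≤ 2 * L) ∧
      Eqv RS (μ (2 * L) + 2 * (8 * L + 10) * n + (8 * L + 10) * n ^ 2) (DF.P l) (DF.P l') := by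
  obtain ⟨l', h1, h2, h3⟩ := collect H τ In Out hin hcor L l hl
  have h4 : l.length ^ 2 ≤ n ^ 2 := Nat.pow_le_pow_left hn 2
  rw [free_triv hw τ hτ, one_mul] at h3
  refine ⟨l', by omega, h2, h3.mono ?_⟩
  have := Nat.mul_le_mul_left (8 * L + 10) h4
  have := Nat.mul_le_mul_left (2 * (8 * L + 10)) hn
  omega

end collect

lemma permP (L : ℕ) {l l' : List (Syl B)} (hp : l.Perm l')
    (hl : ∀ s ∈ l, ab s.1 ∧ sz s.2.1 ≤ L) :
    Eqv RS (μ L + (4 * L + 10) * l.length) (DF.P l) (DF.P l') := by
  have := perm_prod (R := RS) (m := μ L) (K := 4 * L + 10) (hp.map DF.W) (by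
    intro y hy z hz
    obtain ⟨s, hs, rfl⟩ := List.mem_map.mp hy
    obtain ⟨x, hx, rfl⟩ := List.mem_map.mp hz
    have h1 : good s.1 x.1 = true ∧ cor s x = [] := by
      obtain ⟨t, h, b⟩ := s
      obtain ⟨t', h', b'⟩ := x
      rcases (hl _ hs).1 with h1 | h1 | h1 <;> rcases (hl _ hx).1 with h2 | h2 | h2 <;>
        simp only at h1 h2 <;> subst h1 <;> subst h2 <;> simp [good, cor]
    have := H.swap L s x h1.1 (hl s hs).2 (hl x hx).2
    rw [h1.2] at this
    simpa using this) (by
    intro y hy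
    obtain ⟨s, hs, rfl⟩ := List.mem_map.mp hy
    have := nm_W s
    have := (hl s hs).2
    omega)
  rw [List.length_map] at this
  exact this

omit H in
lemma val_perm (t : Ty) (w : E) {l l' : List (Syl B)} (hp : l.Perm l') :
    val t w l = val t w l' := (hp.map _).sum_eq

omit H in
lemma val_cons (t : Ty) (w : E) (h : B) (b : Bool) (l : List (Syl B)) :
    val t w ((t, h, b) :: l) = sgn b • rr h w + val t w l := by simp [val]

omit H in
lemma sgn_not (b : Bool) : sgn (!b) = -sgn b := by cases b <;> simp [sgn]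

lemma kill_x (L n : ℕ) : ∀ l : List (Syl B), l.length ≤ n →
    (∀ s ∈ l, s.1 = .xx ∧ sz s.2.1 ≤ L) → val .xx dl l = 0 →
    Eqv RS (μ L + (4 * L + 10) * n) (DF.P l) 1 := by
  classical
  induction n with
  | zero =>
    intro l hl _ _
    rw [List.length_eq_zero_iff.mp (Nat.le_zero.mp hl)]
    exact Eqv.refl _ _
  | succ n ih =>
    intro l hl h1 h2
    rcases l with _ | ⟨⟨t, h, b⟩, l⟩
    · exact Eqv.refl _ _
    obtain rfl : t = .xx := (h1 (t, h, b) (by simp)).1
    have h3 : (Ty.xx, h, !b) ∈ l := by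
      by_contra hc
      have h4 : ∀ l0 : List (Syl B), (∀ s ∈ l0, s.1 = .xx) → (Ty.xx, h, !b) ∉ l0 →
          0 ≤ sgn b * val .xx dl l0 h⁻¹ := by
        intro l0 h5 h6
        induction l0 with
        | nil => simp [val]
        | cons s l0 ih0 =>
          obtain ⟨t', h', b'⟩ := s
          obtain rfl : t' = .xx := h5 (t', h', b') (by simp)
          have h7 := ih0 (fun s hs => h5 s (by simp [hs])) (fun hs => h6 (by simp [hs]))
          rw [val_cons, Pi.add_apply, mul_add]
          refine add_nonneg ?_ h7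
          simp only [Pi.smul_apply, rr_apply, dl, smul_eq_mul]
          split_ifs with h8
          · have h9 : h' = h := (inv_mul_eq_one.mp h8).symm
            subst h9
            have h10 : b' = b := by
              by_contra h11
              apply h6
              have : b' = !b := by cases b <;> cases b' <;> simp_all
              simp [this]
            subst h10
            cases b' <;> simp [sgn]
          · simp
      have h5 := h4 l (fun s hs => (h1 s (by simp [hs])).1) hc
      have h6 := congrFun h2 h⁻¹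
      rw [val_cons] at h6
      simp only [Pi.add_apply, Pi.smul_apply, rr_apply, dl, inv_mul_cancel, if_true,
        smul_eq_mul, mul_one, Pi.zero_apply] at h6
      have h7 : val .xx dl l h⁻¹ = -sgn b := by linarith
      rw [h7] at h5
      cases b <;> simp [sgn] at h5 <;> linarith
    have hp : ((Ty.xx, h, b) :: l).Perm ((Ty.xx, h, b) :: (Ty.xx, h, !b) :: l.erase (Ty.xx, h, !b)) :=
      (List.perm_cons_erase h3).cons _
    have e1 := permP H L hp (fun s hs => ⟨Or.inl (h1 s hs).1, (h1 s hs).2⟩)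
    have hlen := hp.length_eq
    simp only [List.length_cons] at hl hlen e1
    have e2 := ih (l.erase (Ty.xx, h, !b)) (by omega)
      (fun s hs => h1 s (by simp [List.mem_of_mem_erase hs])) (by
        rw [val_perm _ _ hp, val_cons, val_cons, sgn_not] at h2
        simpa using h2)
    refine (e1.mono (by nlinarith)).trans ((e2.mono (by nlinarith)).cast ?_ rfl)
    rw [Dat.P_cons, Dat.P_cons, ← mul_assoc, Dat.W_cancel, one_mul]

lemma zkill (L : ℕ) (b : Bool) (j : ℕ) (hj : j ≤ 2 ^ L) :
    Eqv RS (μ (3 * L + 1)) (DF.W (.zz, tB ^ (j : ℤ), b)) 1 := by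
  induction j with
  | zero => simpa using (zz_one b).mono (Nat.zero_le _)
  | succ j ih =>
    have h1 := ih (by omega)
    have h2 := H.dbl (3 * L + 1) .zz (tB ^ (j : ℤ)) b (Or.inr rfl) (sz_tB_pow L j (by
      rw [abs_of_nonneg (by positivity)]; exact_mod_cast (by omega : j ≤ 2 ^ L)))
    rw [← zpow_add_one] at h2
    push_cast
    exact h2.symm.trans (((h1.left _).cast rfl (mul_one _)).trans h1)

omit H in
lemma ee_even {x : B} (h : ∀ i : ℤ, x = tB ^ i → 1 ≤ i) : ∃ N : ℤ, ee x = 2 * N := by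
  by_cases h1 : ∃ i : ℤ, x = tB ^ i
  · obtain ⟨i, rfl⟩ := h1
    obtain ⟨k, rfl⟩ : ∃ k : ℕ, i = k + 1 := ⟨(i - 1).toNat, by have := h i rfl; omega⟩
    refine ⟨2 ^ k, ?_⟩
    rw [ee_pow, zpow_add_one₀ (by norm_num), zpow_natCast]; push_cast; ring
  · exact ⟨0, by simp [ee_not h1]⟩

omit H in
lemma rr_tpow (j : ℕ) : rr (tB ^ (j : ℤ)) ee = ((2 ^ j : ℤ) : ℚ) • ee := by
  induction j with
  | zero => simp [rr_one]
  | succ j ih =>
    push_cast at ih ⊢
    rw [zpow_add_one, rr_mul, Module.End.mul_apply, rr_t, map_add, ih, pow_succ, mul_two,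
      add_smul]

lemma kill_yz (τ : Ty) (hτ : τ = .yy ∨ τ = .zz) (L n : ℕ) : ∀ l : List (Syl B), l.length ≤ n →
    (∀ s ∈ l, s.1 = τ ∧ sz s.2.1 + n ≤ L) →
    (∃ m : ℤ, val τ ee l = (m : ℚ) • ee ∧ (τ = .yy → m = 0)) →
    Eqv RS (μ (3 * L + 1) + (4 * (3 * L + 1) + 10) * n) (DF.P l) 1 := by
  classical
  have hab : ab τ := Or.inr hτ
  induction n with
  | zero =>
    intro l hl _ _
    rw [List.length_eq_zero_iff.mp (Nat.le_zero.mp hl)]
    exact Eqv.refl _ _
  | succ n ih =>
    rintro l hl h1 ⟨m, hm, hm'⟩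
    by_cases hne : l = []
    · rw [hne]; exact Eqv.refl _ _
    obtain ⟨s0, hs0, hmin⟩ : ∃ s0 ∈ l, ∀ s ∈ l, lvl s0.2.1 ≤ lvl s.2.1 := by
      obtain ⟨s0, hs0, h⟩ := l.toFinset.exists_min_image (fun s => lvl s.2.1)
        (by simpa using hne)
      exact ⟨s0, by simpa using hs0, fun s hs => h s (by simpa using hs)⟩
    obtain ⟨t, h, b⟩ := s0
    obtain rfl : t = τ := (h1 _ hs0).1
    have hp0 := List.perm_cons_erase hs0
    set l0 := l.erase (t, h, b) with hl0
    have hsub0 : ∀ s ∈ l0, s ∈ l := fun s hs => List.mem_of_mem_erase hs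
    have hlen0 := hp0.length_eq
    have hP : ∀ l' : List (Syl B), l.Perm l' →
        Eqv RS (μ (3 * L + 1) + (4 * (3 * L + 1) + 10) * (n + 1)) (DF.P l) (DF.P l') := by
      intro l' hp
      refine (permP H (3 * L + 1) hp (fun s hs => ⟨(h1 s hs).1 ▸ hab, ?_⟩)).mono (by nlinarith)
      have := (h1 s hs).2; omega
    have hsz : sz h + (n + 1) ≤ L := (h1 _ hs0).2
    simp only [List.length_cons] at hlen0
    rw [val_perm _ _ hp0, val_cons] at hm
    by_cases hA : t = .zz ∧ ∃ j : ℕ, h = tB ^ (j : ℤ)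
    · obtain ⟨rfl, j, rfl⟩ := hA
      have e1 := ih l0 (by omega) (fun s hs => ⟨(h1 s (hsub0 s hs)).1, by
        have := (h1 s (hsub0 s hs)).2; omega⟩) (by
          refine ⟨m - (cond b 1 (-1)) * 2 ^ j, ?_, by simp⟩
          rw [rr_tpow] at hm
          rw [eq_sub_of_add_eq' hm]
          cases b <;> simp [sgn, sub_smul, add_smul])
      have hj : j ≤ 2 ^ L := by
        have h2 := tB_pow_bound j
        rw [abs_of_nonneg (by positivity)] at h2
        have h3 : j ≤ 2 ^ sz (tB ^ (j : ℤ)) := by exact_mod_cast h2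
        exact h3.trans (Nat.pow_le_pow_right (by norm_num) (by omega))
      refine (hP _ hp0).trans ((((e1.left _).mono (by nlinarith)).cast rfl (mul_one _)).trans ?_)
      exact (zkill H L b j hj).mono (by omega)
    · have h3 : ∃ b', (t, h, b') ∈ l0 := by
        by_contra hc
        push Not at hc
        have h4 : ∀ l1 : List (Syl B), (∀ s ∈ l1, s ∈ l0) → ∃ N : ℤ, val t ee l1 h⁻¹ = 2 * N := by
          intro l1 h5
          induction l1 with
          | nil => exact ⟨0, by simp [val]⟩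
          | cons s l1 ih1 =>
            obtain ⟨t', h', b'⟩ := s
            have h6 := h5 (t', h', b') (by simp)
            obtain rfl : t' = t := (h1 _ (hsub0 _ h6)).1
            obtain ⟨N, hN⟩ := ih1 (fun s hs => h5 s (by simp [hs]))
            obtain ⟨N', hN'⟩ := ee_even (x := h⁻¹ * h') (by
              intro i hi
              have h7 : h' = h * tB ^ i := by rw [← hi]; simp
              have h8 := hmin _ (hsub0 _ h6)
              simp only at h8
              rw [h7, lvl_mul] at h8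
              have h9 : i ≠ 0 := by
                rintro rfl
                apply hc b'
                simpa [h7] using h6
              omega)
            refine ⟨cond b' N' (-N') + N, ?_⟩
            rw [val_cons, Pi.add_apply, hN, Pi.smul_apply, rr_apply, hN']
            cases b' <;> simp [sgn] <;> ring
        obtain ⟨N, hN⟩ := h4 l0 (fun s hs => hs)
        have h5 : ∃ N' : ℤ, (m : ℚ) * ee h⁻¹ = 2 * N' := by
          rcases hτ with h6 | h6
          · exact ⟨0, by simp [hm' h6]⟩
          · obtain ⟨N', hN'⟩ := ee_even (x := h⁻¹) (by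
              intro i hi
              by_contra h7
              apply hA
              refine ⟨h6, (-i).toNat, ?_⟩
              rw [Int.toNat_of_nonneg (by omega), zpow_neg, ← hi, inv_inv])
            exact ⟨m * N', by rw [hN']; push_cast; ring⟩
        obtain ⟨N', hN'⟩ := h5
        have h6 := congrFun hm h⁻¹
        have h7 := ee_pow 0
        simp only [zpow_zero] at h7
        simp only [Pi.add_apply, Pi.smul_apply, rr_apply, inv_mul_cancel, h7, smul_eq_mul,
          mul_one, hN, hN'] at h6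
        cases b <;> simp only [sgn, cond_true, cond_false] at h6
        · have : (-1 : ℤ) + 2 * N = 2 * N' := by exact_mod_cast h6
          omega
        · have : (1 : ℤ) + 2 * N = 2 * N' := by exact_mod_cast h6
          omega
      obtain ⟨b', hb'⟩ := h3
      have hp1 := List.perm_cons_erase hb'
      set l1 := l0.erase (t, h, b') with hl1
      have hsub1 : ∀ s ∈ l1, s ∈ l := fun s hs => hsub0 s (List.mem_of_mem_erase hs)
      have hlen1 := hp1.length_eq
      simp only [List.length_cons] at hlen1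
      rw [val_perm _ _ hp1, val_cons] at hm
      refine (hP _ (hp0.trans (hp1.cons _))).trans ?_
      by_cases hb : b' = b
      · subst hb
        have h4 := sz_mul h tB
        have h5 := sz_tB
        have e1 := ih ((t, h * tB, b') :: l1) (by simp only [List.length_cons]; omega) (by
          intro s hs
          rcases List.mem_cons.mp hs with rfl | hs
          · exact ⟨rfl, by simp only; omega⟩
          · exact ⟨(h1 s (hsub1 s hs)).1, by have := (h1 s (hsub1 s hs)).2; omega⟩) (by
          refine ⟨m, ?_, hm'⟩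
          rw [val_cons, ← hm, rr_mul, Module.End.mul_apply, rr_t, map_add, smul_add, add_assoc])
        have n1 := nm_P (L := 3 * L + 1) (l := l1) (fun s hs => by
          have := (h1 s (hsub1 s hs)).2; omega)
        have e2 := (H.dbl (3 * L + 1) t h b' hτ (by omega)).right (DF.P l1)
        refine ((e2.mono (by nlinarith)).cast (by simp [mul_assoc]) rfl).trans
          (e1.mono (by nlinarith))
      · obtain rfl : b' = !b := by revert hb; cases b <;> cases b' <;> decide
        have e1 := ih l1 (by omega) (fun s hs => ⟨(h1 s (hsub1 s hs)).1, by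
          have := (h1 s (hsub1 s hs)).2; omega⟩) (by
          refine ⟨m, ?_, hm'⟩
          rw [sgn_not] at hm
          simpa using hm)
        refine (e1.mono (by nlinarith)).cast ?_ rfl
        rw [Dat.P_cons, Dat.P_cons, ← mul_assoc, Dat.W_cancel, one_mul]

omit H in
lemma val_filter (t : Ty) (w : E) (l : List (Syl B)) :
    val t w (l.filter (fun s => s.1 = t)) = val t w l := by
  induction l with
  | nil => rfl
  | cons s l ih =>
    rw [List.filter_cons]
    unfold val at ih ⊢
    by_cases h : s.1 = t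
    · simp only [h, decide_true, if_true, List.map_cons, List.sum_cons, ih]
    · simp only [h, decide_false, Bool.false_eq_true, if_false, List.map_cons, List.sum_cons, ih,
        zero_add]

omit H in
lemma ab_perm (l : List (Syl B)) (hl : ∀ s ∈ l, ab s.1) :
    l.Perm (l.filter (fun s => s.1 = .xx) ++ l.filter (fun s => s.1 = .yy) ++
      l.filter (fun s => s.1 = .zz)) := by
  induction l with
  | nil => simp
  | cons s l ih =>
    have h1 := ih (fun x hx => hl x (by simp [hx]))
    rcases hl s (by simp) with h | h | h <;> simp only [List.filter_cons, h, decide_true,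
      if_true, reduceCtorEq, decide_false, Bool.false_eq_true, if_false]
    · exact h1.cons s
    · refine (h1.cons s).trans ?_
      simp only [List.append_assoc, List.cons_append]
      exact List.perm_middle.symm
    · exact (h1.cons s).trans List.perm_middle.symm

lemma kill_ab (L n : ℕ) (l : List (Syl B)) (hn : l.length ≤ n)
    (hl : ∀ s ∈ l, ab s.1 ∧ sz s.2.1 + n ≤ L) (hw : DF.P l ∈ Subgroup.normalClosure RS) :
    Eqv RS (μ (3 * L + 1) + (4 * (3 * L + 1) + 10) * n) (DF.P l) 1 := by
  obtain ⟨hx, hy, m, hz⟩ := ab_triv (fun s hs => (hl s hs).1) hw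
  have e0 := permP H (3 * L + 1) (ab_perm l (fun s hs => (hl s hs).1))
    (fun s hs => ⟨(hl s hs).1, by have := (hl s hs).2; omega⟩)
  have hf : ∀ t : Ty, (l.filter (fun s => s.1 = t)).length ≤ n ∧
      ∀ s ∈ l.filter (fun s => s.1 = t), s.1 = t ∧ sz s.2.1 + n ≤ L := by
    intro t
    refine ⟨(List.length_filter_le _ _).trans hn, fun s hs => ?_⟩
    obtain ⟨h5, h6⟩ := List.mem_filter.mp hs
    exact ⟨by simpa using h6, (hl s h5).2⟩
  have e1 := kill_x H (3 * L + 1) n _ (hf .xx).1 (fun s hs => ⟨((hf .xx).2 s hs).1, by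
    have := ((hf .xx).2 s hs).2; omega⟩) (by rw [val_filter]; exact hx)
  have e2 := kill_yz H .yy (Or.inl rfl) L n _ (hf .yy).1 (hf .yy).2
    ⟨0, by rw [val_filter, hy]; simp, fun _ => rfl⟩
  have e3 := kill_yz H .zz (Or.inr rfl) L n _ (hf .zz).1 (hf .zz).2
    ⟨m, by rw [val_filter, hz], by simp⟩
  refine (e0.mono (by nlinarith)).trans ?_
  simp only [Dat.P_append]
  exact ((e3.left _).cast rfl (mul_one _)).trans (((e2.left _).cast rfl (mul_one _)).trans e1)

end phases

lemma PB.comp {ι : Type} {σ f : ι → ℕ} {μ : ℕ → ℕ} (hμ : PB id μ) (hf : PB σ f) :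
    PB σ (fun i => μ (f i)) := by
  obtain ⟨C, k, h⟩ := hμ
  exact (hf.poly C k).mono (fun i => h (f i))

/-- polynomial isodiametric function -/
theorem diam_poly : ∃ M : ℕ → ℕ, PB id M ∧ ∀ (n : ℕ) (w : List (Fin 7 × Bool)), w.length ≤ n →
    FreeGroup.mk w ∈ Subgroup.normalClosure RS → FreeGroup.mk w ∈ N RS (M n) := by
  obtain ⟨μ, hμ, H⟩ := exists_loc
  let ph : ℕ → ℕ → ℕ := fun L n => μ (2 * L) + 2 * (8 * L + 10) * n + (8 * L + 10) * n ^ 2
  have hph : ∀ f g : ℕ → ℕ, PB id f → PB id g → PB id (fun n => ph (f n) (g n)) := by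
    intro f g hf hg
    have h1 := ((PB.const 8).mul hf).add (PB.const 10)
    exact ((hμ.comp ((PB.const 2).mul hf)).add (((PB.const 2).mul h1).mul hg)).add
      (h1.mul (hg.pow 2))
  have hid : PB id (fun n : ℕ => n) := PB.self
  have hT : PB id (fun n : ℕ => ((n ^ 2) ^ 2) ^ 2) := ((hid.pow 2).pow 2).pow 2
  have hL : PB id (fun n : ℕ => 3 * (2 * (2 * (2 * (2 * n))) + ((n ^ 2) ^ 2) ^ 2) + 1) :=
    ((PB.const 3).mul (((PB.const 2).mul ((PB.const 2).mul ((PB.const 2).mul
      ((PB.const 2).mul hid)))).add hT)).add (PB.const 1)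
  refine ⟨fun n => (μ n + (8 * n + 10) * n) + ph (2 * n) n + ph (2 * (2 * n)) (n ^ 2) +
    ph (2 * (2 * (2 * n))) ((n ^ 2) ^ 2) +
    (μ (3 * (2 * (2 * (2 * (2 * n))) + ((n ^ 2) ^ 2) ^ 2) + 1) +
      (4 * (3 * (2 * (2 * (2 * (2 * n))) + ((n ^ 2) ^ 2) ^ 2) + 1) + 10) * ((n ^ 2) ^ 2) ^ 2),
    ?_, ?_⟩
  · exact ((((hμ.add ((((PB.const 8).mul hid).add (PB.const 10)).mul hid)).add
      (hph _ _ ((PB.const 2).mul hid) hid)).add
      (hph _ _ ((PB.const 2).mul ((PB.const 2).mul hid)) (hid.pow 2))).add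
      (hph _ _ ((PB.const 2).mul ((PB.const 2).mul ((PB.const 2).mul hid)))
        ((hid.pow 2).pow 2))).add
      ((hμ.comp hL).add ((((PB.const 4).mul hL).add (PB.const 10)).mul hT))
  intro n w hw hnc
  obtain ⟨u, v, l1, -, -, a1, a2, e1⟩ := ph1 H n w hw
  have n1 := e1.mem_nc hnc
  obtain ⟨rfl, rfl⟩ := B_triv n1
  rw [p_one, q_one, one_mul, one_mul] at e1 n1
  obtain ⟨l2, b1, b2, e2⟩ := phase H .al fr (fun t => t = .ga ∨ t = .de ∨ t = .xx)
    (by rintro t (rfl | rfl | rfl) <;> simp [good])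
    (by
      rintro ⟨_, h, b⟩ ⟨t, h', b'⟩ rfl (h1 | h1 | h1) h2 c hc <;> simp only at h1 <;> subst h1 <;>
        simp only [cor, List.mem_singleton, List.not_mem_nil, ne_eq, not_true_eq_false] at hc h2
      subst hc
      exact ⟨by simp, rfl, by rintro ⟨_, _, _⟩ rfl; rfl⟩)
    (Or.inl rfl) (2 * n) n l1 (by omega) a2 n1
  have n2 := e2.mem_nc n1
  obtain ⟨l3, c1, c2, e3⟩ := phase H .de (fun t => t = .ga ∨ t = .de ∨ t = .xx)
    (fun t => t = .ga ∨ ab t)
    (by rintro t (rfl | rfl | rfl) <;> simp [good, ab])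
    (by
      rintro ⟨_, h, b⟩ ⟨t, h', b'⟩ rfl (h1 | h1 | h1) h2 c hc <;> simp only at h1 <;> subst h1 <;>
        simp only [cor, List.mem_singleton, List.not_mem_nil, ne_eq, not_true_eq_false] at hc h2
      all_goals
        subst hc
        exact ⟨by simp [ab], rfl, by rintro ⟨_, _, _⟩ rfl; rfl⟩)
    (Or.inr (Or.inr rfl)) _ _ l2 b1 b2 n2
  have n3 := e3.mem_nc n2
  obtain ⟨l4, d1, d2, e4⟩ := phase H .ga (fun t => t = .ga ∨ ab t) ab
    (by rintro t (rfl | rfl | rfl | rfl) <;> simp [good, ab])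
    (by
      rintro ⟨_, h, b⟩ ⟨t, h', b'⟩ rfl (h1 | h1 | h1 | h1) <;> simp only at h1 <;> subst h1 <;>
        simp [cor])
    (Or.inr (Or.inl rfl)) _ _ l3 c1 c2 n3
  have n4 := e4.mem_nc n3
  have e5 := kill_ab H (2 * (2 * (2 * (2 * n))) + ((n ^ 2) ^ 2) ^ 2) _ l4 d1
    (fun s hs => ⟨(d2 s hs).1, by have := (d2 s hs).2; omega⟩) n4
  rw [← Eqv.one_iff]
  simp only [ph]
  exact (e1.mono (by omega)).trans ((e2.mono (by omega)).trans ((e3.mono (by omega)).trans
    ((e4.mono (by omega)).trans (e5.mono (by omega)))))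

end H192Z.Iso
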