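import Pool.Agent.H192Z.Iso.Pres

set_option autoImplicit false
set_option linter.unusedSectionVars false

namespace H192Z.Iso

open FreeGroup (of mk_toWord)

section lam
variable {Γ : Type} [Group Γ] {D : Dat B Γ} (H : Rel D tB)

noncomputable def Lam (D : Dat B Γ) : F →* Γ :=
  FreeGroup.lift ![D.a, D.g, D.d, D.p (πB (of 0)), D.p (πB (of 1)), D.q (πB (of 0)),
    D.q (πB (of 1))]

include H

lemma Lam_2 (u : FB) : Lam D (FreeGroup.map i2 u) = D.p (πB u) := by
  have : (Lam D).comp (FreeGroup.map i2) = (MonoidHom.mk' D.p H.pm).comp πB := by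
    ext i; fin_cases i <;> simp [Lam, i2]
  exact DFunLike.congr_fun this u

lemma Lam_3 (u : FB) : Lam D (FreeGroup.map i3 u) = D.q (πB u) := by
  have : (Lam D).comp (FreeGroup.map i3) = (MonoidHom.mk' D.q H.qm).comp πB := by
    ext i; fin_cases i <;> simp [Lam, i3]
  exact DFunLike.congr_fun this u

lemma Lam_a : Lam D ga = D.a := by simp [Lam, ga]
lemma Lam_g : Lam D gg = D.g := by simp [Lam, gg]
lemma Lam_d : Lam D gd = D.d := by simp [Lam, gd]
lemma Lam_2' (i : Fin 2) : Lam D (of (i2 i)) = D.p (πB (of i)) := by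
  rw [← Lam_2 H]; simp
lemma Lam_3' (i : Fin 2) : Lam D (of (i3 i)) = D.q (πB (of i)) := by
  rw [← Lam_3 H]; simp
lemma Lam_x : Lam D gx = D.x := by simp [gx, cm, Dat.x, Lam_a H, Lam_g H]
lemma Lam_y : Lam D gy = D.y := by simp [gy, cm, Dat.y, Lam_d H, Lam_g H]

lemma Lam_DF : DF.map (Lam D) = D := by
  have h1 : Lam D ∘ DF.p = D.p := by
    funext h; simp only [DF, Function.comp, Lam_2 H, π_rep]
  have h2 : Lam D ∘ DF.q = D.q := by
    funext h; simp only [DF, Function.comp, Lam_3 H, π_rep]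
  unfold Dat.map
  rw [h1, h2]
  simp only [DF, Lam_a H, Lam_g H, Lam_d H]

lemma Lam_P (l : List (Syl B)) : Lam D (DF.P l) = D.P l := by rw [Dat.map_P, Lam_DF H]
lemma Lam_p (h : B) : Lam D (DF.p h) = D.p h := by simp only [DF, Lam_2 H, π_rep]
lemma Lam_q (h : B) : Lam D (DF.q h) = D.q h := by simp only [DF, Lam_3 H, π_rep]
lemma Lam_syl (t : Ty) (h : B) : Lam D (DF.syl t h) = D.syl t h := by
  rw [Dat.map_syl, Lam_DF H]
lemma Lam_z : Lam D gz = D.syl .zz 1 := by rw [← syl_zz_one, Lam_syl H]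

lemma Lam_cr {u v : F} (h : Commute (Lam D u) (Lam D v)) : Lam D (cr u v) = 1 := by
  simp only [cr, map_mul, map_inv]
  rw [mul_assoc, h.eq]; group

lemma Lam_R0 : ∀ r ∈ Rl0, Lam D r = 1 := by
  simp only [Rl0, List.forall_mem_cons]
  refine ⟨?_, ?_, ?_, ?_, ?_, ?_, ?_, ?_, ?_, ?_, ?_, ?_, ?_, ?_, ?_, ?_, ?_, ?_, ?_, ?_, ?_, ?_,
    ?_, by simp⟩
  · rw [Lam_2 H, πB_rB rB rfl, H.p1]
  · rw [Lam_3 H, πB_rB rB rfl, H.q1]
  rotate_right
  · simp only [map_mul, map_inv, Lam_2' H, Lam_y H]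
    rw [show πB (of 0) = tB from rfl, H.ty]; group
  all_goals
    apply Lam_cr H
    simp only [map_mul, Lam_2' H, Lam_3' H, Lam_a H, Lam_g H, Lam_d H, Lam_x H, Lam_y H]
  exacts [H.pq _ _, H.pq _ _, H.pq _ _, H.pq _ _, H.aq _, H.aq _, H.dp _, H.dp _, H.gpq _,
    H.gpq _, H.ad, H.xp _, H.xp _, H.yq _, H.yq _, H.xa, H.xg, H.yg, H.yd, H.xy]

lemma Lam_central (u : F) : Commute (D.syl .zz 1) (Lam D u) := by
  induction u using FreeGroup.induction_on with
  | C1 => simp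
  | of i =>
    fin_cases i <;> simp only [Lam, FreeGroup.lift_apply_of]
    exacts [H.zz_a _, H.zz_g _, H.zz_d _, H.zz_p _ _, H.zz_p _ _, H.zz_q _ _, H.zz_q _ _]
  | inv_of i h => rw [map_inv]; exact h.inv_right
  | mul x y hx hy => rw [map_mul]; exact hx.mul_right hy

lemma Lam_rel {r : F} (hr : r ∈ RS) (u : F) :
    ∃ m : ℤ, |m| ≤ 1 ∧ Lam D (u * r * u⁻¹) = D.syl .zz 1 ^ m := by
  rcases mem_RS.mp hr with rfl | hr
  · refine ⟨1, by simp, ?_⟩
    rw [map_mul, map_mul, map_inv, Lam_z H, conj_eq (Lam_central H u), zpow_one]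
  · exact ⟨0, by simp, by simp [Lam_R0 H r hr]⟩

lemma Lam_nc {w : F} (hw : w ∈ Subgroup.normalClosure RS) :
    ∃ m : ℤ, Lam D w = D.syl .zz 1 ^ m := by
  let K : Subgroup F := (Subgroup.zpowers (D.syl .zz 1)).comap (Lam D)
  have hK : K.Normal := ⟨by
    rintro n ⟨m, hm⟩ u
    refine ⟨m, ?_⟩
    simp only at hm ⊢
    rw [map_mul, map_mul, map_inv, ← hm, conj_eq ((Lam_central H u).zpow_left m)]⟩
  have h1 : Subgroup.normalClosure RS ≤ K := Subgroup.normalClosure_le_normal (by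
    intro r hr
    obtain ⟨m, -, hm⟩ := Lam_rel H hr 1
    exact ⟨m, by simpa using hm.symm⟩)
  obtain ⟨m, hm⟩ := h1 hw
  exact ⟨m, hm.symm⟩

lemma Lam_area (l : List (List (Fin 7 × Bool) × F)) (hl : ∀ p ∈ l, p.2 ∈ RS ∨ p.2⁻¹ ∈ RS) :
    ∃ m : ℤ, |m| ≤ l.length ∧
      Lam D (l.map (fun p => FreeGroup.mk p.1 * p.2 * (FreeGroup.mk p.1)⁻¹)).prod
        = D.syl .zz 1 ^ m := by
  induction l with
  | nil => exact ⟨0, by simp, by simp⟩
  | cons p l ih =>
    obtain ⟨m, hm, h⟩ := ih (fun q hq => hl q (by simp [hq]))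
    have : ∃ m : ℤ, |m| ≤ 1 ∧
        Lam D (FreeGroup.mk p.1 * p.2 * (FreeGroup.mk p.1)⁻¹) = D.syl .zz 1 ^ m := by
      rcases hl p (by simp) with h1 | h1
      · exact Lam_rel H h1 _
      · obtain ⟨m, hm, h2⟩ := Lam_rel H h1 (FreeGroup.mk p.1)
        refine ⟨-m, by simpa using hm, ?_⟩
        rw [zpow_neg, ← h2, ← map_inv]
        congr 1; group
    obtain ⟨m', hm', h'⟩ := this
    refine ⟨m' + m, ?_, ?_⟩
    · have := abs_add_le m' m
      simp only [List.length_cons]; push_cast; omega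
    · simp only [List.map_cons, List.prod_cons]
      rw [map_mul, h, h', zpow_add]

end lam

/-! ### the model detecting the free parts -/

abbrev Om := Ty → FreeGroup B

def shf : B × B →* MulAut (B × B → Om) where
  toFun k := MulEquiv.arrowCongr (Equiv.mulLeft k) (MulEquiv.refl Om)
  map_one' := by
    ext f h
    show f (1⁻¹ * h) _ = f h _
    simp
  map_mul' k k' := by
    ext f h
    show f ((k * k')⁻¹ * h) _ = f (k'⁻¹ * (k⁻¹ * h)) _
    simp [mul_assoc]

@[simp] lemma shf_apply (k : B × B) (f : B × B → Om) (h : B × B) : shf k f h = f (k⁻¹ * h) := rfl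

abbrev Th := (B × B → Om) ⋊[shf] (B × B)

open SemidirectProduct in
noncomputable def DT : Dat B Th :=
  ⟨fun h => inr (h, 1), fun h => inr (1, h),
   inl (fun h => Pi.mulSingle .al (of h.1)), inl (fun h => Pi.mulSingle .ga (of (h.1⁻¹ * h.2))),
   inl (fun h => Pi.mulSingle .de (of h.2⁻¹))⟩

open SemidirectProduct in
lemma inl_comm {s t : Ty} (hst : s ≠ t) (f g : B × B → FreeGroup B) :
    Commute (inl (fun h => Pi.mulSingle s (f h)) : Th) (inl (fun h => Pi.mulSingle t (g h))) := by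
  apply Commute.map (f := (inl : (B × B → Om) →* Th))
  funext h
  exact (Pi.mulSingle_commute (f := fun _ => FreeGroup B) hst (f h) (g h)).eq

lemma cm_eq_one {Γ : Type} [Group Γ] {u v : Γ} (h : Commute u v) : cm u v = 1 := by
  rw [cm, h.eq]; group

lemma DT_x : DT.x = 1 := cm_eq_one (inl_comm (by decide) _ _)
lemma DT_y : DT.y = 1 := cm_eq_one (inl_comm (by decide) _ _)

open SemidirectProduct in
lemma inl_inr_comm (f : B × B → Om) (k : B × B) (h : ∀ x, f (k⁻¹ * x) = f x) :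
    Commute (inl f : Th) (inr k) := by
  show _ = _
  ext1
  · funext x; simp [h]
  · simp

lemma relT : Rel DT tB where
  pm h k := by simp only [DT, ← map_mul]; simp
  qm h k := by simp only [DT, ← map_mul]; simp
  pq h k := by show _ = _; simp only [DT, ← map_mul]; simp
  aq h := inl_inr_comm _ _ (by simp)
  dp h := inl_inr_comm _ _ (by simp)
  gpq h := by simp only [DT, ← map_mul]; exact inl_inr_comm _ _ (by simp [mul_assoc])
  ad := inl_comm (by decide) _ _
  xp := by simp [DT_x]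
  yq := by simp [DT_y]
  xa := by simp [DT_x]
  xg := by simp [DT_x]
  yg := by simp [DT_y]
  yd := by simp [DT_y]
  xy := by simp [DT_x]
  ty := by simp [DT_y]

def fr (t : Ty) : Prop := t = .al ∨ t = .ga ∨ t = .de

lemma DT_syl (s : Ty) (h : B) : (DT.syl s h).right = 1 ∧
    ∀ t, fr t → (DT.syl s h).left 1 t = if s = t then of h else 1 := by
  cases s <;> simp only [Dat.syl, DT_x, DT_y]
  all_goals
    refine ⟨by simp [DT, cm], ?_⟩
    rintro t (rfl | rfl | rfl) <;> simp [DT, cm]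

lemma DT_P (l : List (Syl B)) : (DT.P l).right = 1 ∧
    ∀ t, fr t → (DT.P l).left 1 t =
      FreeGroup.mk ((l.filter (fun s => s.1 = t)).map (fun s => s.2)) := by
  classical
  induction l with
  | nil => exact ⟨rfl, fun _ _ => rfl⟩
  | cons s l ih =>
    obtain ⟨s, h, b⟩ := s
    obtain ⟨h1, h2⟩ := DT_syl s h
    have h3 : (DT.W (s, h, b)).right = 1 := by cases b <;> simp [Dat.W, sg, h1]
    refine ⟨by simp [h3, ih.1], fun t ht => ?_⟩
    have h4 : (DT.W (s, h, b)).left 1 t = if s = t then lt (h, b) else 1 := by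
      cases b <;> simp [Dat.W, sg, h1, h2 t ht, lt_false, lt_true]
      split_ifs <;> simp
    simp only [Dat.P_cons, SemidirectProduct.mul_left, h3, map_one, MulAut.one_apply,
      Pi.mul_apply, h4, ih.2 t ht, List.filter_cons]
    by_cases hst : s = t <;> simp [hst, mk_cons]

lemma LamT_nc {w : F} (hw : w ∈ Subgroup.normalClosure RS) : Lam DT w = 1 := by
  obtain ⟨m, hm⟩ := Lam_nc relT hw
  rw [hm]
  simp [Dat.syl, DT_y, cm]

lemma B_triv {u v : B} {l : List (Syl B)}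
    (hw : DF.p u * DF.q v * DF.P l ∈ Subgroup.normalClosure RS) : u = 1 ∧ v = 1 := by
  have h1 := LamT_nc hw
  rw [map_mul, map_mul, Lam_p relT, Lam_q relT, Lam_P relT] at h1
  have h2 := congrArg SemidirectProduct.right h1
  rw [SemidirectProduct.mul_right, (DT_P l).1] at h2
  simpa [DT] using h2

lemma free_triv {l : List (Syl B)} (hw : DF.P l ∈ Subgroup.normalClosure RS) (t : Ty)
    (ht : fr t) : DF.P (l.filter (fun s => s.1 = t)) = 1 := by
  classical
  have h1 := LamT_nc hw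
  rw [Lam_P relT] at h1
  have h2 := (DT_P l).2 t ht
  rw [h1] at h2
  have h3 : ∀ l' : List (Syl B), (∀ s ∈ l', s.1 = t) →
      DF.P l' = FreeGroup.lift (DF.syl t) (FreeGroup.mk (l'.map (fun s => s.2))) := by
    intro l' hl'
    rw [FreeGroup.lift_mk, List.map_map, Dat.P]
    congr 1
    apply List.map_congr_left
    intro s hs
    rw [Dat.W, hl' s hs]; rfl
  rw [h3 _ (fun s hs => by simpa using (List.mem_filter.mp hs).2), ← h2]
  simp

/-! ### the model detecting the abelian parts -/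

abbrev E := B → ℚ
abbrev A := Module.End ℚ E

def rr (h : B) : A := LinearMap.funLeft ℚ ℚ (fun x => x * h)

@[simp] lemma rr_apply (h : B) (f : E) (x : B) : rr h f x = f (x * h) := rfl
lemma rr_mul (h k : B) : rr (h * k) = rr h * rr k := by ext f x; simp [mul_assoc]
lemma rr_one : rr 1 = 1 := by ext f x; simp
lemma rr_inv1 (h : B) : rr h * rr h⁻¹ = 1 := by rw [← rr_mul]; simp [rr_one]
lemma rr_inv2 (h : B) : rr h⁻¹ * rr h = 1 := by rw [← rr_mul]; simp [rr_one]
@[simp] lemma rr_inv3 (h : B) (f : E) : rr h (rr h⁻¹ f) = f := by ext x; simp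
@[simp] lemma rr_inv4 (h : B) (f : E) : rr h⁻¹ (rr h f) = f := by ext x; simp

open Classical in
noncomputable def ee : E := fun x => if h : ∃ j : ℤ, x = tB ^ j then 2 ^ h.choose else 0

lemma ee_pow (j : ℤ) : ee (tB ^ j) = 2 ^ j := by
  have h : ∃ i : ℤ, tB ^ j = tB ^ i := ⟨j, rfl⟩
  rw [ee, dif_pos h, ← tB_inj h.choose_spec]

lemma ee_not {x : B} (h : ¬ ∃ j : ℤ, x = tB ^ j) : ee x = 0 := by rw [ee, dif_neg h]

lemma rr_t : rr tB ee = ee + ee := by
  funext x
  simp only [rr_apply, Pi.add_apply]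
  by_cases h : ∃ j : ℤ, x = tB ^ j
  · obtain ⟨j, rfl⟩ := h
    rw [← zpow_add_one, ee_pow, ee_pow, zpow_add_one₀ (by norm_num)]; ring
  · rw [ee_not h, ee_not]; · simp
    rintro ⟨j, hj⟩
    exact h ⟨j - 1, by rw [zpow_sub_one, ← hj]; simp⟩

abbrev V := E × E × A

def pa : Equiv.Perm V where
  toFun v := (v.1 + v.2.1, v.2.1, v.2.2)
  invFun v := (v.1 - v.2.1, v.2.1, v.2.2)
  left_inv v := by simp
  right_inv v := by simp
noncomputable def pg : Equiv.Perm V where
  toFun v := (v.1, v.2.1 + v.2.2 ee, v.2.2)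
  invFun v := (v.1, v.2.1 - v.2.2 ee, v.2.2)
  left_inv v := by simp
  right_inv v := by simp
def pd : Equiv.Perm V where
  toFun v := (v.1, v.2.1, v.2.2 + 1)
  invFun v := (v.1, v.2.1, v.2.2 - 1)
  left_inv v := by simp
  right_inv v := by simp
def pp (h : B) : Equiv.Perm V where
  toFun v := (v.1, rr h v.2.1, v.2.2)
  invFun v := (v.1, rr h⁻¹ v.2.1, v.2.2)
  left_inv v := by simp
  right_inv v := by simp
def pq (h : B) : Equiv.Perm V where
  toFun v := (v.1, v.2.1, rr h * v.2.2)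
  invFun v := (v.1, v.2.1, rr h⁻¹ * v.2.2)
  left_inv v := by simp [← mul_assoc, rr_inv2]
  right_inv v := by simp [← mul_assoc, rr_inv1]

noncomputable def DV : Dat B (Equiv.Perm V) := ⟨pp, pq, pa, pg, pd⟩

lemma DV_x (v : V) : DV.x v = (v.1 + v.2.2 ee, v.2.1, v.2.2) := by
  simp [Dat.x, cm, DV, pa, pg, Equiv.Perm.mul_apply, Equiv.Perm.inv_def]
  abel
lemma DV_y (v : V) : DV.y v = (v.1, v.2.1 + ee, v.2.2) := by
  simp [Dat.y, cm, DV, pd, pg, Equiv.Perm.mul_apply, Equiv.Perm.inv_def]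
  abel
lemma DV_p (h : B) (v : V) : DV.p h v = (v.1, rr h v.2.1, v.2.2) := rfl
lemma DV_q (h : B) (v : V) : DV.q h v = (v.1, v.2.1, rr h * v.2.2) := rfl
lemma DV_pi (h : B) (v : V) : (DV.p h)⁻¹ v = (v.1, rr h⁻¹ v.2.1, v.2.2) := rfl
lemma DV_qi (h : B) (v : V) : (DV.q h)⁻¹ v = (v.1, v.2.1, rr h⁻¹ * v.2.2) := rfl
lemma DV_a (v : V) : DV.a v = (v.1 + v.2.1, v.2.1, v.2.2) := rfl
lemma DV_g (v : V) : DV.g v = (v.1, v.2.1 + v.2.2 ee, v.2.2) := rfl
lemma DV_d (v : V) : DV.d v = (v.1, v.2.1, v.2.2 + 1) := rfl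

lemma relV : Rel DV tB := by
  constructor
  all_goals
    intros
    refine Equiv.ext (fun v => ?_)
    simp only [Equiv.Perm.mul_apply, DV_x, DV_y, DV_p, DV_q, DV_pi, DV_a, DV_g, DV_d, rr_mul,
      Module.End.mul_apply, mul_assoc, map_add, rr_inv3, rr_t, add_assoc]
  all_goals simp [add_comm]

lemma DV_xx (h : B) (v : V) : DV.syl .xx h v = (v.1 + rr h (v.2.2 ee), v.2.1, v.2.2) := by
  simp only [Dat.syl, Equiv.Perm.mul_apply, DV_x, DV_q, DV_qi, ← mul_assoc, rr_inv2, one_mul,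
    Module.End.mul_apply]
lemma DV_yy (h : B) (v : V) : DV.syl .yy h v = (v.1, v.2.1 + rr h ee, v.2.2) := by
  simp only [Dat.syl, Equiv.Perm.mul_apply, DV_y, DV_p, DV_pi, map_add, rr_inv3]
lemma DV_zz (h : B) (v : V) : DV.syl .zz h v = (v.1 + rr h ee, v.2.1, v.2.2) := by
  have h1 : DV.syl .zz h * (DV.syl .yy h * DV.a) = DV.a * DV.syl .yy h := by
    rw [relV.zz_eq', cm]; group
  have h2 := congrArg (fun f : Equiv.Perm V => f (v.1 - (v.2.1 - rr h ee), v.2.1 - rr h ee, v.2.2)) h1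
  simp only [Equiv.Perm.mul_apply, DV_yy, DV_a, sub_add_cancel] at h2
  rw [h2]
  congr 1
  abel

def sgn (b : Bool) : ℚ := cond b 1 (-1)

noncomputable def val (t : Ty) (w : E) (l : List (Syl B)) : E :=
  (l.map (fun s => if s.1 = t then sgn s.2.2 • rr s.2.1 w else 0)).sum

def ab (t : Ty) : Prop := t = .xx ∨ t = .yy ∨ t = .zz

lemma DV_P (l : List (Syl B)) (hl : ∀ s ∈ l, ab s.1) (v : V) :
    DV.P l v = (v.1 + val .xx (v.2.2 ee) l + val .zz ee l, v.2.1 + val .yy ee l, v.2.2) := by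
  induction l with
  | nil => simp [val]
  | cons s l ih =>
    obtain ⟨s, h, b⟩ := s
    rw [Dat.P_cons, Equiv.Perm.mul_apply, ih (fun s hs => hl s (by simp [hs]))]
    have := hl (s, h, b) (by simp)
    cases b
    · rw [Dat.W, sg, cond_false, Equiv.Perm.inv_eq_iff_eq]
      rcases this with h1 | h1 | h1 <;> simp only at h1 <;> subst h1 <;>
        simp [DV_xx, DV_yy, DV_zz, val, sgn] <;> abel
    · rw [Dat.W, sg, cond_true]
      rcases this with h1 | h1 | h1 <;> simp only at h1 <;> subst h1 <;>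
        simp [DV_xx, DV_yy, DV_zz, val, sgn] <;> abel

lemma DV_zpow (m : ℤ) (v : V) : (DV.syl .zz 1 ^ m) v = (v.1 + (m : ℚ) • ee, v.2.1, v.2.2) := by
  induction m using Int.induction_on generalizing v with
  | zero => simp
  | succ k ih =>
    rw [zpow_add_one, Equiv.Perm.mul_apply, ih, DV_zz, rr_one]
    simp [add_smul]; abel
  | pred k ih =>
    rw [zpow_sub_one, Equiv.Perm.mul_apply, ih]
    have : (DV.syl .zz 1)⁻¹ v = (v.1 - ee, v.2.1, v.2.2) := by
      rw [Equiv.Perm.inv_eq_iff_eq, DV_zz, rr_one]; simp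
    rw [this]
    simp [sub_smul]; abel

open Classical in
noncomputable def dl : E := fun x => if x = 1 then 1 else 0

lemma ab_triv {l : List (Syl B)} (hl : ∀ s ∈ l, ab s.1)
    (hw : DF.P l ∈ Subgroup.normalClosure RS) :
    val .xx dl l = 0 ∧ val .yy ee l = 0 ∧ ∃ m : ℤ, val .zz ee l = (m : ℚ) • ee := by
  obtain ⟨m, hm⟩ := Lam_nc relV hw
  rw [Lam_P relV] at hm
  let c : A := (LinearMap.proj (1 : B) : E →ₗ[ℚ] ℚ).smulRight dl
  have hc : c ee = dl := by
    have := ee_pow 0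
    simp only [zpow_zero] at this
    simp [c, this]
  have h1 := DV_P l hl (0, 0, 0)
  have h2 := DV_P l hl (0, 0, c)
  rw [hm, DV_zpow] at h1 h2
  have h0 : val .xx 0 l = 0 := by simp [val]
  simp only [hc, zero_add, LinearMap.zero_apply, h0, Prod.mk.injEq] at h1 h2
  refine ⟨?_, h1.2.1.symm, m, h1.1.symm⟩
  have h3 := h2.1
  rw [h1.1] at h3
  simpa using h3

/-- the area lower bound -/
lemma area_lb (j : ℕ) (l : List (List (Fin 7 × Bool) × F))
    (hl : ∀ p ∈ l, p.2 ∈ RS ∨ p.2⁻¹ ∈ RS)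
    (h : DF.syl .zz (tB ^ (j : ℤ)) =
      (l.map (fun p => FreeGroup.mk p.1 * p.2 * (FreeGroup.mk p.1)⁻¹)).prod) :
    2 ^ j ≤ l.length := by
  obtain ⟨m, hm, h1⟩ := Lam_area relV l hl
  rw [← h, Lam_syl relV] at h1
  have h2 := congrArg (fun f : Equiv.Perm V => (f 0).1 1) h1
  have h3 := ee_pow 0
  simp only [zpow_zero] at h3
  simp only [DV_zz, DV_zpow, Prod.fst_zero, zero_add, rr_apply, one_mul, Pi.smul_apply,
    h3, smul_eq_mul, mul_one] at h2
  rw [ee_pow, zpow_natCast] at h2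
  have h4 : m = 2 ^ j := by exact_mod_cast h2.symm
  rw [h4, abs_of_pos (by positivity)] at hm
  exact_mod_cast hm

end H192Z.Iso
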