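import Pool.Agent.H192Z.Iso.BS
import Pool.Agent.H192Z.Iso.Abs

set_option autoImplicit false
set_option linter.unusedSectionVars false

namespace H192Z.Iso

open FreeGroup (of mk_toWord)

abbrev F := FreeGroup (Fin 7)
def ga : F := of 0
def gg : F := of 1
def gd : F := of 2
def i2 : Fin 2 → Fin 7 := ![3, 4]
def i3 : Fin 2 → Fin 7 := ![5, 6]
def gx : F := cm ga gg
def gy : F := cm gg gd
def gz : F := cm ga gy
def cr (u v : F) : F := u⁻¹ * v⁻¹ * u * v

def Rl0 : List F :=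
  [FreeGroup.map i2 rB, FreeGroup.map i3 rB,
   cr (of (i2 0)) (of (i3 0)), cr (of (i2 0)) (of (i3 1)),
   cr (of (i2 1)) (of (i3 0)), cr (of (i2 1)) (of (i3 1)),
   cr ga (of (i3 0)), cr ga (of (i3 1)), cr gd (of (i2 0)), cr gd (of (i2 1)),
   cr gg (of (i2 0) * of (i3 0)), cr gg (of (i2 1) * of (i3 1)),
   cr ga gd, cr gx (of (i2 0)), cr gx (of (i2 1)), cr gy (of (i3 0)), cr gy (of (i3 1)),
   cr gx ga, cr gx gg, cr gy gg, cr gy gd, cr gx gy,
   (gy * gy)⁻¹ * (of (i2 0) * gy * (of (i2 0))⁻¹)]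

def RF : Finset F := (gz :: Rl0).toFinset
def RS : Set F := (RF : Set F)

lemma mem_RS {r : F} : r ∈ RS ↔ r = gz ∨ r ∈ Rl0 := by simp [RS, RF]

lemma mem0 (n : ℕ) (r : F) (h : Rl0[n]? = some r) : r ∈ RS :=
  mem_RS.mpr (Or.inr (List.mem_of_getElem? h))

noncomputable def DF : Dat B F :=
  ⟨fun h => FreeGroup.map i2 (rep h), fun h => FreeGroup.map i3 (rep h), ga, gg, gd⟩

lemma nm_p (h : B) : nm (DF.p h) ≤ sz h := norm_map_le _ _
lemma nm_q (h : B) : nm (DF.q h) ≤ sz h := norm_map_le _ _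

lemma S2 : ∀ r ∈ SB, FreeGroup.map i2 r ∈ RS := by rintro r rfl; exact mem0 0 _ rfl
lemma S3 : ∀ r ∈ SB, FreeGroup.map i3 r ∈ RS := by rintro r rfl; exact mem0 1 _ rfl

lemma rep_mul (h k : B) : Eqv SB (20 * (sz h + sz k) + 10) (rep (h * k)) (rep h * rep k) := by
  have h1 := bs_eqv (u := rep (h * k)) (v := rep h * rep k) (by simp [π_rep])
  have h2 := sz_mul h k
  have h3 := nm_mul (rep h) (rep k)
  exact h1.mono (by unfold sz at *; omega)

lemma c23 (i j : Fin 2) : Eqv RS 0 (of (i2 i) * of (i3 j)) (of (i3 j) * of (i2 i)) := by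
  apply eqv_of_comm_rel
  fin_cases i <;> fin_cases j
  exacts [mem0 2 _ rfl, mem0 3 _ rfl, mem0 4 _ rfl, mem0 5 _ rfl]

lemma c23' (u v : FB) : Eqv RS (2 + nm u + nm v) (FreeGroup.map i2 u * FreeGroup.map i3 v)
    (FreeGroup.map i3 v * FreeGroup.map i2 u) := by
  have h1 : ∀ i, Eqv RS (0 + 1 + nm v) (FreeGroup.map i3 v * of (i2 i))
      (of (i2 i) * FreeGroup.map i3 v) := fun i => (comm_map i3 (of (i2 i)) (c23 i) v).symm
  exact (comm_map i2 _ h1 u).symm.mono (by omega)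

lemma lt_map {X Y : Type} (f : Y → X) (s : Y × Bool) :
    FreeGroup.map f (FreeGroup.mk [s]) = FreeGroup.mk [(f s.1, s.2)] := by
  rw [FreeGroup.map.mk]; rfl

lemma g_lt (s : Fin 2 × Bool) : Eqv RS 10
    (gg * (FreeGroup.map i2 (lt s) * FreeGroup.map i3 (lt s)))
    ((FreeGroup.map i2 (lt s) * FreeGroup.map i3 (lt s)) * gg) := by
  obtain ⟨i, b⟩ := s
  have h0 : Eqv RS 0 (gg * (of (i2 i) * of (i3 i))) ((of (i2 i) * of (i3 i)) * gg) := by
    apply eqv_of_comm_rel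
    fin_cases i
    exacts [mem0 10 _ rfl, mem0 11 _ rfl]
  cases b
  · have h1 := h0.comm_inv
    have h2 := nm_mul (of (i2 i) : F) (of (i3 i))
    have h3 := c23' (lt (i, false)) (lt (i, false))
    have h4 := norm_lt (i, false)
    have h5 : FreeGroup.map i3 (lt (i, false)) * FreeGroup.map i2 (lt (i, false))
        = (of (i2 i) * of (i3 i))⁻¹ := by simp [lt_false]
    rw [h5] at h3
    simp only [nm_of] at h2
    refine ((h3.left gg).mono (by omega)).trans ((h1.mono (by omega)).trans ?_)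
    exact h3.symm.right' gg (by have : nm gg = 1 := rfl; omega)
  · simpa [lt_true] using h0.mono (by omega)

lemma g_pq (L : List (Fin 2 × Bool)) : Eqv RS (4 * L.length + 20)
    (gg * (FreeGroup.map i2 (FreeGroup.mk L) * FreeGroup.map i3 (FreeGroup.mk L)))
    ((FreeGroup.map i2 (FreeGroup.mk L) * FreeGroup.map i3 (FreeGroup.mk L)) * gg) := by
  induction L with
  | nil =>
    have : (FreeGroup.mk [] : FB) = 1 := rfl
    rw [this]; exact Eqv.of_eq (by simp)
  | cons s L ih =>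
    rw [mk_cons, map_mul, map_mul]
    have hL := nm_mk L
    have hs := norm_lt s
    have hnu : nm (FreeGroup.map i2 (FreeGroup.mk L)) ≤ L.length := (norm_map_le _ _).trans hL
    have hnv : nm (FreeGroup.map i3 (FreeGroup.mk L)) ≤ L.length := (norm_map_le _ _).trans hL
    have hc := (c23' (FreeGroup.mk L) (lt s)).mono (m' := L.length + 3) (by omega)
    have hgl := g_lt s
    generalize FreeGroup.map i2 (lt s) = a at *
    generalize FreeGroup.map i3 (lt s) = b at *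
    generalize FreeGroup.map i2 (FreeGroup.mk L) = u at *
    generalize FreeGroup.map i3 (FreeGroup.mk L) = v at *
    have huv := nm_mul u v
    have hg : nm gg = 1 := rfl
    have h1 : Eqv RS (2 * L.length + 3) (a * u * (b * v)) (a * b * (u * v)) :=
      (((hc.right' v (m' := 2 * L.length + 3) (by omega)).left a).cast
        (by group) (by group))
    have h2 := hgl.right' (u * v) (m' := 4 * (L.length + 1) + 20) (by omega)
    have h3 := ih.left (a * b)
    simp only [List.length_cons]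
    refine ((h1.left gg).mono (by omega)).trans ((h2.cast (by group) rfl).trans
      (((h3.mono (by omega)).cast (by group) rfl).trans ?_))
    exact (h1.symm.right' gg (by omega)).cast (by group) (by group)

section star
variable {ι : Type} (σ : ι → ℕ)

def BSt : Subgroup (ι → B) where
  carrier := {h | PB σ (fun i => sz (h i))}
  one_mem' := (PB.const 0).mono (fun _ => by simp [sz_one])
  mul_mem' := fun {u v} hu hv => (PB.add hu hv).mono (fun i => sz_mul _ _)
  inv_mem' := fun {u} hu => PB.mono hu (fun i => sz_inv _)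

def cB (h : B) : BSt σ := ⟨fun _ => h, PB.const _⟩

def evB (i : ι) : BSt σ →* B := (Pi.evalMonoidHom (fun _ => B) i).comp (BSt σ).subtype

noncomputable def DS : Dat (BSt σ) (Sh (X := Fin 7) σ) :=
  ⟨fun h => ⟨fun i => DF.p (h.1 i), PB.mono h.2 (fun _ => nm_p _)⟩,
   fun h => ⟨fun i => DF.q (h.1 i), PB.mono h.2 (fun _ => nm_q _)⟩,
   cst σ ga, cst σ gg, cst σ gd⟩

noncomputable def DG : Dat (BSt σ) (GS RS σ) := (DS σ).map (mkS RS σ)

lemma DS_ev (i : ι) : (DS σ).map (evS σ i) = DF.comap (evB σ i) := rfl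

lemma commS {u v : Sh (X := Fin 7) σ} (m : ι → ℕ) (hm : PB σ m)
    (h : ∀ i, Eqv RS (m i) (u.1 i * v.1 i) (v.1 i * u.1 i)) :
    Commute (mkS RS σ u) (mkS RS σ v) := by
  show _ = _
  rw [← map_mul, ← map_mul, mkS_eq]
  exact ⟨m, hm, h⟩

lemma DG_x : (DG σ).x = mkS RS σ (cst σ gx) := by
  simp only [DG, Dat.map, Dat.x, cm, ← map_mul, ← map_inv]; rfl
lemma DG_y : (DG σ).y = mkS RS σ (cst σ gy) := by
  simp only [DG, Dat.map, Dat.y, cm, ← map_mul, ← map_inv]; rfl

lemma commC {u v : F} (h : cr u v ∈ RS) :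
    Commute (mkS RS σ (cst σ u)) (mkS RS σ (cst σ v)) :=
  commS σ (fun _ => 0) (PB.const 0) (fun _ => eqv_of_comm_rel h)

lemma commP {u : F} (h : ∀ j, cr u (of (i2 j)) ∈ RS) (k : BSt σ) :
    Commute (mkS RS σ (cst σ u)) ((DG σ).p k) :=
  commS σ (fun i => 0 + 1 + sz (k.1 i)) ((PB.const _).add k.2)
    (fun i => comm_map i2 u (fun j => eqv_of_comm_rel (h j)) (rep (k.1 i)))

lemma commQ {u : F} (h : ∀ j, cr u (of (i3 j)) ∈ RS) (k : BSt σ) :
    Commute (mkS RS σ (cst σ u)) ((DG σ).q k) :=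
  commS σ (fun i => 0 + 1 + sz (k.1 i)) ((PB.const _).add k.2)
    (fun i => comm_map i3 u (fun j => eqv_of_comm_rel (h j)) (rep (k.1 i)))

lemma p_cst (u : FB) : (DG σ).p (cB σ (πB u)) = mkS RS σ (cst σ (FreeGroup.map i2 u)) := by
  show mkS RS σ _ = _
  rw [mkS_eq]
  exact ⟨fun _ => _, PB.const _, fun _ => (bs_eqv (π_rep (πB u))).map i2 S2⟩

lemma q_cst (u : FB) : (DG σ).q (cB σ (πB u)) = mkS RS σ (cst σ (FreeGroup.map i3 u)) := by
  show mkS RS σ _ = _
  rw [mkS_eq]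
  exact ⟨fun _ => _, PB.const _, fun _ => (bs_eqv (π_rep (πB u))).map i3 S3⟩

lemma relG : Rel (DG σ) (cB σ tB) where
  pm h k := by
    show mkS RS σ _ = mkS RS σ _ * mkS RS σ _
    rw [← map_mul, mkS_eq]
    refine ⟨fun i => 20 * (sz (h.1 i) + sz (k.1 i)) + 10,
      ((PB.const _).mul (PB.add h.2 k.2)).add (PB.const _), fun i => ?_⟩
    have := (rep_mul (h.1 i) (k.1 i)).map i2 S2
    rw [map_mul] at this
    exact this
  qm h k := by
    show mkS RS σ _ = mkS RS σ _ * mkS RS σ _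
    rw [← map_mul, mkS_eq]
    refine ⟨fun i => 20 * (sz (h.1 i) + sz (k.1 i)) + 10,
      ((PB.const _).mul (PB.add h.2 k.2)).add (PB.const _), fun i => ?_⟩
    have := (rep_mul (h.1 i) (k.1 i)).map i3 S3
    rw [map_mul] at this
    exact this
  pq h k := commS σ (fun i => 2 + sz (h.1 i) + sz (k.1 i)) (((PB.const _).add h.2).add k.2)
    (fun i => c23' _ _)
  aq := commQ σ (by intro j; fin_cases j; exacts [mem0 6 _ rfl, mem0 7 _ rfl])
  dp := commP σ (by intro j; fin_cases j; exacts [mem0 8 _ rfl, mem0 9 _ rfl])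
  gpq h := by
    show Commute (mkS RS σ _) (mkS RS σ _ * mkS RS σ _)
    rw [← map_mul]
    refine commS σ (fun i => 4 * sz (h.1 i) + 20) (((PB.const _).mul h.2).add (PB.const _))
      (fun i => ?_)
    have := g_pq (rep (h.1 i)).toWord
    rw [mk_toWord] at this
    exact this
  ad := commC σ (mem0 12 _ rfl)
  xp := by
    rw [DG_x]; exact commP σ (by intro j; fin_cases j; exacts [mem0 13 _ rfl, mem0 14 _ rfl])
  yq := by
    rw [DG_y]; exact commQ σ (by intro j; fin_cases j; exacts [mem0 15 _ rfl, mem0 16 _ rfl])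
  xa := by rw [DG_x]; exact commC σ (mem0 17 _ rfl)
  xg := by rw [DG_x]; exact commC σ (mem0 18 _ rfl)
  yg := by rw [DG_y]; exact commC σ (mem0 19 _ rfl)
  yd := by rw [DG_y]; exact commC σ (mem0 20 _ rfl)
  xy := by rw [DG_x, DG_y]; exact commC σ (mem0 21 _ rfl)
  ty := by
    rw [DG_y, tB, p_cst, ← map_mul, ← map_inv, ← map_mul, ← map_mul, mkS_eq]
    refine ⟨fun _ => 0, PB.const _, fun _ => Eqv.symm ?_⟩
    exact N_rel (mem0 22 _ rfl)

end star

lemma unif {J ι : Type} [Fintype J] (σ : ι → ℕ) (Q : J → ι → ℕ → Prop)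
    (hQ : ∀ j i m m', m ≤ m' → Q j i m → Q j i m')
    (h : ∀ j, ∃ m, PB σ m ∧ ∀ i, Q j i (m i)) :
    ∃ μ : ℕ → ℕ, PB id μ ∧ ∀ L j i, σ i ≤ 2 * L → Q j i (μ L) := by
  classical
  choose m hm hmQ using h
  have h1 : ∀ s : Finset J, PB σ (fun i => ∑ j ∈ s, m j i) := by
    intro s
    induction s using Finset.induction_on with
    | empty => simpa using PB.const 0
    | insert j s hj ih => simpa [Finset.sum_insert hj] using (hm j).add ih
  obtain ⟨C, k, hC⟩ := h1 Finset.univ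
  refine ⟨fun L => C * (2 * L + 1) ^ k, PB.poly ((PB.const 2).mul PB.self) C k, ?_⟩
  intro L j i hi
  refine hQ j i _ _ ?_ (hmQ j i)
  have h2 : m j i ≤ ∑ j ∈ Finset.univ, m j i :=
    Finset.single_le_sum (f := fun j => m j i) (fun _ _ => Nat.zero_le _) (Finset.mem_univ j)
  have h3 : (σ i + 1) ^ k ≤ (2 * L + 1) ^ k := Nat.pow_le_pow_left (by omega) k
  exact h2.trans ((hC i).trans (Nat.mul_le_mul_left C h3))

noncomputable def σ2 (i : B × B) : ℕ := sz i.1 + sz i.2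
noncomputable def f1 : BSt σ2 := ⟨fun i => i.1, PB.self.mono (fun _ => Nat.le_add_right _ _)⟩
noncomputable def f2 : BSt σ2 := ⟨fun i => i.2, PB.self.mono (fun _ => Nat.le_add_left _ _)⟩

lemma W_ev (i : B × B) (s : Syl (BSt σ2)) :
    ((DS σ2).W s).1 i = DF.W (ix (evB σ2 i) s) := by
  rw [← Dat.comap_W, ← DS_ev, ← Dat.map_W]; rfl

lemma P_ev (i : B × B) (l : List (Syl (BSt σ2))) :
    ((DS σ2).P l).1 i = DF.P (l.map (ix (evB σ2 i))) := by
  rw [← Dat.comap_P, ← DS_ev, ← Dat.map_P]; rfl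

lemma loc_swap : ∃ μ : ℕ → ℕ, PB id μ ∧ ∀ (L : ℕ) (s x : Syl B), good s.1 x.1 = true →
    sz s.2.1 ≤ L → sz x.2.1 ≤ L →
    Eqv RS (μ L) (DF.W x * DF.W s) (DF.W s * DF.W x * DF.P (cor s x)) := by
  obtain ⟨μ, hμ, h⟩ := unif (J := Ty × Bool × Ty × Bool) σ2
    (fun j i m => good j.1 j.2.2.1 = true →
      Eqv RS m (DF.W (j.2.2.1, i.2, j.2.2.2) * DF.W (j.1, i.1, j.2.1))
      (DF.W (j.1, i.1, j.2.1) * DF.W (j.2.2.1, i.2, j.2.2.2) *
        DF.P (cor (j.1, i.1, j.2.1) (j.2.2.1, i.2, j.2.2.2))))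
    (fun j i m m' hm h hg => (h hg).mono hm) (by
      rintro ⟨ts, bs, tx, bx⟩
      by_cases hg : good ts tx = true
      · have h1 := (relG σ2).swap (ts, f1, bs) (tx, f2, bx) hg
        simp only [DG, ← Dat.map_W, ← Dat.map_P, ← map_mul] at h1
        rw [mkS_eq] at h1
        obtain ⟨m, hm, h2⟩ := h1
        refine ⟨m, hm, fun i _ => ?_⟩
        have h3 := h2 i
        simp only [Subgroup.coe_mul, Pi.mul_apply, W_ev, P_ev, cor_ix] at h3
        exact h3
      · exact ⟨fun _ => 0, PB.const 0, fun i h => absurd h hg⟩)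
  refine ⟨μ, hμ, fun L s x hg hs hx => ?_⟩
  exact h L (s.1, s.2.2, x.1, x.2.2) (s.2.1, x.2.1) (by simp only [σ2]; omega) hg

lemma loc_dbl : ∃ μ : ℕ → ℕ, PB id μ ∧ ∀ (L : ℕ) (s : Ty) (h : B) (b : Bool),
    (s = .yy ∨ s = .zz) → sz h ≤ L →
    Eqv RS (μ L) (DF.W (s, h, b) * DF.W (s, h, b)) (DF.W (s, h * tB, b)) := by
  obtain ⟨μ, hμ, h⟩ := unif (J := Ty × Bool) σ2
    (fun j i m => (j.1 = .yy ∨ j.1 = .zz) →
      Eqv RS m (DF.W (j.1, i.1, j.2) * DF.W (j.1, i.1, j.2)) (DF.W (j.1, i.1 * tB, j.2)))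
    (fun j i m m' hm h hg => (h hg).mono hm) (by
      rintro ⟨ts, bs⟩
      by_cases hg : ts = .yy ∨ ts = .zz
      · have h1 := (relG σ2).dbl ts hg f1 bs
        simp only [DG, ← Dat.map_W, ← map_mul] at h1
        rw [mkS_eq] at h1
        obtain ⟨m, hm, h2⟩ := h1
        refine ⟨m, hm, fun i _ => ?_⟩
        have h3 := h2 i
        simp only [Subgroup.coe_mul, Pi.mul_apply, W_ev] at h3
        exact h3
      · exact ⟨fun _ => 0, PB.const 0, fun i h => absurd h hg⟩)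
  refine ⟨μ, hμ, fun L s k b hg hs => ?_⟩
  exact h L (s, b) (k, 1) (by simp only [σ2, sz_one]; omega) hg

noncomputable def stepU {B' : Type} [Group B'] (e : B → B') (s : Fin 7 × Bool) (u : B') : B' :=
  match s.1 with
  | 3 => e (πB (lt (0, s.2))) * u
  | 4 => e (πB (lt (1, s.2))) * u
  | _ => u

noncomputable def stepV {B' : Type} [Group B'] (e : B → B') (s : Fin 7 × Bool) (v : B') : B' :=
  match s.1 with
  | 5 => e (πB (lt (0, s.2))) * v
  | 6 => e (πB (lt (1, s.2))) * v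
  | _ => v

def stepL {B' : Type} [Group B'] (s : Fin 7 × Bool) (u v : B') : List (Syl B') :=
  match s.1 with
  | 0 => [(.al, u, s.2)]
  | 1 => [(.ga, u⁻¹ * v, s.2)]
  | 2 => [(.de, v⁻¹, s.2)]
  | _ => []

lemma lt_sg {X : Type} [DecidableEq X] (i : X) (b : Bool) : lt (i, b) = sg b (of i) := by
  cases b
  · exact lt_false i
  · rfl

lemma pushG (s : Fin 7 × Bool) (u v : BSt σ2) :
    mkS RS σ2 (cst σ2 (lt s)) * ((DG σ2).p u * (DG σ2).q v) =
      (DG σ2).p (stepU (cB σ2) s u) * (DG σ2).q (stepV (cB σ2) s v) *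
        (DG σ2).P (stepL s u v) := by
  obtain ⟨i, b⟩ := s
  have hc : ∀ j : Fin 7, mkS RS σ2 (cst σ2 (lt (j, b))) = sg b (mkS RS σ2 (cst σ2 (of j))) := by
    intro j; rw [← map_sg, lt_sg]; cases b <;> rfl
  have h2 : ∀ j : Fin 2, mkS RS σ2 (cst σ2 (lt (i2 j, b))) = (DG σ2).p (cB σ2 (πB (lt (j, b)))) := by
    intro j; rw [p_cst, lt, lt, lt_map]
  have h3 : ∀ j : Fin 2, mkS RS σ2 (cst σ2 (lt (i3 j, b))) = (DG σ2).q (cB σ2 (πB (lt (j, b)))) := by
    intro j; rw [q_cst, lt, lt, lt_map]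
  fin_cases i
  · simp only [hc]
    exact ((relG σ2).push_a u v b).trans (congrArg _ (mul_one _).symm)
  · simp only [hc]
    exact ((relG σ2).push_g u v b).trans (congrArg _ (mul_one _).symm)
  · simp only [hc]
    exact ((relG σ2).push_d u v b).trans (congrArg _ (mul_one _).symm)
  · have := (relG σ2).push_p (cB σ2 (πB (lt (0, b)))) u v
    rw [← h2 0] at this
    simp only [stepU, stepV, stepL, Dat.P_nil, mul_one]
    exact this
  · have := (relG σ2).push_p (cB σ2 (πB (lt (1, b)))) u v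
    rw [← h2 1] at this
    simp only [stepU, stepV, stepL, Dat.P_nil, mul_one]
    exact this
  · have := (relG σ2).push_q (cB σ2 (πB (lt (0, b)))) u v
    rw [← h3 0] at this
    simp only [stepU, stepV, stepL, Dat.P_nil, mul_one]
    exact this
  · have := (relG σ2).push_q (cB σ2 (πB (lt (1, b)))) u v
    rw [← h3 1] at this
    simp only [stepU, stepV, stepL, Dat.P_nil, mul_one]
    exact this

lemma loc_push : ∃ μ : ℕ → ℕ, PB id μ ∧ ∀ (L : ℕ) (s : Fin 7 × Bool) (u v : B),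
    sz u ≤ L → sz v ≤ L →
    Eqv RS (μ L) (lt s * (DF.p u * DF.q v))
      (DF.p (stepU id s u) * DF.q (stepV id s v) * DF.P (stepL s u v)) := by
  obtain ⟨μ, hμ, h⟩ := unif (J := Fin 7 × Bool) σ2
    (fun s i m => Eqv RS m (lt s * (DF.p i.1 * DF.q i.2))
      (DF.p (stepU id s i.1) * DF.q (stepV id s i.2) * DF.P (stepL s i.1 i.2)))
    (fun j i m m' hm h => h.mono hm) (by
      intro s
      have h1 := pushG s f1 f2
      have e1 : ∀ h, (DG σ2).p h = mkS RS σ2 ((DS σ2).p h) := fun _ => rfl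
      have e2 : ∀ h, (DG σ2).q h = mkS RS σ2 ((DS σ2).q h) := fun _ => rfl
      rw [e1, e1, e2, e2, DG, ← Dat.map_P] at h1
      simp only [← map_mul] at h1
      rw [mkS_eq] at h1
      obtain ⟨m, hm, h2⟩ := h1
      refine ⟨m, hm, fun i => ?_⟩
      have h3 := h2 i
      simp only [Subgroup.coe_mul, Pi.mul_apply, P_ev] at h3
      obtain ⟨j, b⟩ := s
      fin_cases j <;> exact h3)
  refine ⟨μ, hμ, fun L s u v hu hv => ?_⟩
  exact h L s (u, v) (by simp only [σ2]; omega)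

lemma sz_stepU (s : Fin 7 × Bool) (u : B) : sz (stepU id s u) ≤ sz u + 1 := by
  obtain ⟨j, b⟩ := s
  have h : ∀ i : Fin 2, sz (πB (lt (i, b)) * u) ≤ sz u + 1 := by
    intro i
    have h1 := sz_mul (πB (lt (i, b))) u
    have h2 := (sz_le (lt (i, b))).trans (norm_lt _)
    omega
  fin_cases j <;> simp only [stepU, id] <;> first | exact h _ | omega

lemma sz_stepV (s : Fin 7 × Bool) (u : B) : sz (stepV id s u) ≤ sz u + 1 := by
  obtain ⟨j, b⟩ := s
  have h : ∀ i : Fin 2, sz (πB (lt (i, b)) * u) ≤ sz u + 1 := by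
    intro i
    have h1 := sz_mul (πB (lt (i, b))) u
    have h2 := (sz_le (lt (i, b))).trans (norm_lt _)
    omega
  fin_cases j <;> simp only [stepV, id] <;> first | exact h _ | omega

lemma stepL_spec (s : Fin 7 × Bool) (u v : B) : (stepL s u v).length ≤ 1 ∧
    ∀ y ∈ stepL s u v, (y.1 = .al ∨ y.1 = .ga ∨ y.1 = .de) ∧ sz y.2.1 ≤ sz u + sz v := by
  obtain ⟨j, b⟩ := s
  have h1 := sz_mul u⁻¹ v
  have h2 := sz_inv u
  have h3 := sz_inv v
  fin_cases j <;> simp [stepL] <;> omega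

lemma nm_sg (b : Bool) (u : F) : nm (sg b u) = nm u := by cases b <;> simp [sg]

lemma nm_cm (u v : F) : nm (cm u v) ≤ 2 * nm u + 2 * nm v := by
  have h1 := nm_mul (u * v * u⁻¹) v⁻¹
  have h2 := nm3 u v u⁻¹
  simp only [nm_inv] at h1 h2
  unfold cm; omega

lemma nm_W (s : Syl B) : nm (DF.W s) ≤ 4 * sz s.2.1 + 10 := by
  obtain ⟨t, h, b⟩ := s
  have hp := nm_p h
  have hq := nm_q h
  have ha : nm DF.a = 1 := rfl
  have hg : nm DF.g = 1 := rfl
  have hd : nm DF.d = 1 := rfl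
  have hx : nm DF.x ≤ 4 := nm_cm DF.a DF.g
  have hy : nm DF.y ≤ 4 := nm_cm DF.g DF.d
  simp only [Dat.W, nm_sg]
  cases t <;> simp only [Dat.syl]
  · have := nm3 (DF.p h)⁻¹ DF.a (DF.p h); simp only [nm_inv] at this; omega
  · have := nm3 (DF.p h) DF.g (DF.p h)⁻¹; simp only [nm_inv] at this; omega
  · have := nm3 (DF.q h) DF.d (DF.q h)⁻¹; simp only [nm_inv] at this; omega
  · have := nm3 (DF.q h)⁻¹ DF.x (DF.q h); simp only [nm_inv] at this; omega
  · have := nm3 (DF.p h) DF.y (DF.p h)⁻¹; simp only [nm_inv] at this; omega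
  · have := nm3 (DF.p h) DF.y (DF.p h)⁻¹
    have h2 := nm_cm DF.a (DF.p h * DF.y * (DF.p h)⁻¹)
    simp only [nm_inv] at this; omega

lemma p_one : DF.p 1 = 1 := by simp [DF, rep_one]
lemma q_one : DF.q 1 = 1 := by simp [DF, rep_one]

lemma syl_zz_one : DF.syl .zz 1 = gz := by
  simp only [Dat.syl, p_one]; simp [gz]; rfl

lemma zz_one (b : Bool) : Eqv RS 0 (DF.W (.zz, 1, b)) 1 := by
  rw [Eqv.one_iff]
  have := N_rel (R := RS) (mem_RS.mpr (Or.inl rfl))
  cases b <;> simp only [Dat.W, sg, syl_zz_one, cond_true, cond_false]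
  · exact Subgroup.inv_mem _ this
  · exact this

end H192Z.Iso
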